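import Pool.Agent.L0h46.CY.Stm

/-!
Project CY (helper46), module BEZ (helper91): a discriminant.
-/

set_option autoImplicit false

namespace Pool.Agent.L0h46.CY

open Polynomial
open Pool.Agent.L0h46.CV (fm Gd fp)

namespace BEZm

/-- Gauss' lemma for squarefree polynomials -/
theorem sqf_map {R K : Type*} [CommRing R] [IsDomain R] [IsIntegrallyClosed R] [Field K] [Algebra R K]
    [IsFractionRing R K] {H : R[X]} (hm : H.Monic) (hs : Squarefree H) :
    Squarefree (H.map (algebraMap R K)) := by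
  have hinj : Function.Injective (algebraMap R K) := IsFractionRing.injective R K
  intro g hg
  have hH0 : H.map (algebraMap R K) ≠ 0 := (hm.map _).ne_zero
  have hg0 : g ≠ 0 := by
    rintro rfl
    rw [zero_mul, zero_dvd_iff] at hg
    exact hH0 hg
  obtain ⟨g', hg'⟩ := IsIntegrallyClosed.eq_map_mul_C_of_dvd K hm ((dvd_mul_right g g).trans hg)
  have hlc : g.leadingCoeff ≠ 0 := leadingCoeff_ne_zero.2 hg0
  have hmon : (g'.map (algebraMap R K)).Monic := by
    have h1 := congrArg leadingCoeff hg'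
    rw [leadingCoeff_mul, leadingCoeff_C] at h1
    exact mul_right_cancel₀ hlc (h1.trans (one_mul _).symm)
  have hmon' : g'.Monic := (Function.Injective.monic_map_iff hinj).2 hmon
  obtain ⟨c, hc⟩ : ∃ c, c = g.leadingCoeff := ⟨_, rfl⟩
  rw [← hc] at hg' hlc
  have h2 : (g' * g').map (algebraMap R K) ∣ H.map (algebraMap R K) := by
    refine dvd_trans ?_ hg
    rw [Polynomial.map_mul]
    refine ⟨C c * C c, ?_⟩
    rw [← hg']
    ring
  have h3 := (map_dvd_map (algebraMap R K) hinj (hmon'.mul hmon')).1 h2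
  have h4 : IsUnit g' := hs g' h3
  have h5 : IsUnit (g'.map (algebraMap R K)) := h4.map (mapRingHom (algebraMap R K))
  rw [← hg']
  exact h5.mul (isUnit_C.2 hlc.isUnit)

theorem sqf_unit {S : Type*} [CommRing S] {u x : S} (hu : IsUnit u) (hx : Squarefree x) :
    Squarefree (u * x) := by
  intro y hy
  exact hx y (hu.dvd_mul_left.1 hy)

/-- the discriminant does not vanish -/
theorem disc_ne {n d : ℕ} {G : Polynomial (MvPolynomial (Fin n) ℤ)} {a : ℤ} (hd : 1 ≤ d)
    (hdeg : G.natDegree = d) (ha : a ≠ 0) (hlc : G.leadingCoeff = MvPolynomial.C a)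
    (hsq : Squarefree (G.map (MvPolynomial.map (Int.castRingHom ℚ) : MvPolynomial (Fin n) ℤ →+* _))) :
    resultant G (derivative G) d (d - 1) ≠ 0 := by
  obtain ⟨ι, hι⟩ : ∃ ι : MvPolynomial (Fin n) ℤ →+* MvPolynomial (Fin n) ℚ,
    ι = MvPolynomial.map (Int.castRingHom ℚ) := ⟨_, rfl⟩
  have hιinj : Function.Injective ι := by
    rw [hι]
    exact MvPolynomial.map_injective _ (Int.cast_injective (α := ℚ))
  have hιa : ι (MvPolynomial.C a) = MvPolynomial.C (a : ℚ) := by
    rw [hι, MvPolynomial.map_C]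
    rfl
  rw [← hι] at hsq
  have ha' : (a : ℚ) ≠ 0 := by exact_mod_cast ha
  obtain ⟨H, hH⟩ : ∃ H, H = C (MvPolynomial.C ((a : ℚ)⁻¹)) * G.map ι := ⟨_, rfl⟩
  have hu : IsUnit (C (MvPolynomial.C ((a : ℚ)⁻¹)) : Polynomial (MvPolynomial (Fin n) ℚ)) := by
    refine isUnit_C.2 ?_
    exact (inv_ne_zero ha').isUnit.map (MvPolynomial.C : ℚ →+* MvPolynomial (Fin n) ℚ)
  have hm : H.Monic := by
    rw [Monic, hH, leadingCoeff_mul, leadingCoeff_C, leadingCoeff_map_of_injective hιinj, hlc, hιa,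
      ← MvPolynomial.C_mul, inv_mul_cancel₀ ha', MvPolynomial.C_1]
  have hs : Squarefree H := by
    rw [hH]
    exact sqf_unit hu hsq
  have hK := sqf_map (K := FractionRing (MvPolynomial (Fin n) ℚ)) hm hs
  obtain ⟨φ, hφ⟩ : ∃ φ : MvPolynomial (Fin n) ℤ →+* FractionRing (MvPolynomial (Fin n) ℚ),
    φ = (algebraMap (MvPolynomial (Fin n) ℚ) (FractionRing (MvPolynomial (Fin n) ℚ))).comp ι := ⟨_, rfl⟩
  have hφinj : Function.Injective φ := by
    rw [hφ]
    exact (IsFractionRing.injective (MvPolynomial (Fin n) ℚ)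
      (FractionRing (MvPolynomial (Fin n) ℚ))).comp hιinj
  have hGsq : Squarefree (G.map φ) := by
    refine Squarefree.squarefree_of_dvd ?_ hK
    rw [hH, Polynomial.map_mul, Polynomial.map_map, ← hφ]
    exact dvd_mul_left _ _
  have : CharZero (FractionRing (MvPolynomial (Fin n) ℚ)) :=
    charZero_of_injective_algebraMap (IsFractionRing.injective (MvPolynomial (Fin n) ℚ)
      (FractionRing (MvPolynomial (Fin n) ℚ)))
  have hsep : (G.map φ).Separable := PerfectField.separable_iff_squarefree.2 hGsq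
  have h1 := resultant_ne_zero (G.map φ) (derivative (G.map φ)) hsep
  have hd1 : (G.map φ).natDegree = d := by
    rw [natDegree_map_eq_of_injective hφinj, hdeg]
  have hd2 : (derivative (G.map φ)).natDegree = d - 1 := by
    rw [natDegree_derivative, hd1]
  rw [hd1, hd2, derivative_map, resultant_map_map] at h1
  intro h2
  rw [h2, map_zero] at h1
  exact h1 rfl

end BEZm

/-- **BEZ** -/
theorem bez : S_BEZ := by
  intro n d G a hd hdeg ha hlc hsq
  obtain ⟨Φ0, hΦ0⟩ : ∃ Φ0, Φ0 = resultant G (derivative G) d (d - 1) := ⟨_, rfl⟩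
  have hne : Φ0 ≠ 0 := by
    rw [hΦ0]
    exact BEZm.disc_ne hd hdeg ha hlc hsq
  obtain ⟨u, v, -, -, huv⟩ := exists_mul_add_mul_eq_C_resultant (m := d) (n := d - 1) G (derivative G) hdeg.le
    ((natDegree_derivative_le G).trans (by rw [hdeg])) (Or.inl (by omega))
  rw [← hΦ0] at huv
  have hCa : (MvPolynomial.C a : MvPolynomial (Fin n) ℤ) ≠ 0 := by
    rwa [Ne, MvPolynomial.C_eq_zero]
  refine ⟨MvPolynomial.C a * Φ0, mul_ne_zero hCa hne, ?_⟩
  intro z p hp hnd
  have : Fact p.Prime := ⟨hp⟩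
  rw [map_mul, MvPolynomial.eval_C] at hnd
  obtain ⟨ψ, hψ⟩ : ∃ ψ : MvPolynomial (Fin n) ℤ →+* ZMod p,
    ψ = (Int.castRingHom (ZMod p)).comp (MvPolynomial.eval z) := ⟨_, rfl⟩
  have ha0 : ((a : ℤ) : ZMod p) ≠ 0 := by
    rw [Ne, ZMod.intCast_zmod_eq_zero_iff_dvd]
    exact fun h => hnd (h.mul_right _)
  have hψ0 : ψ Φ0 ≠ 0 := by
    rw [hψ]
    show ((MvPolynomial.eval z Φ0 : ℤ) : ZMod p) ≠ 0
    rw [Ne, ZMod.intCast_zmod_eq_zero_iff_dvd]
    exact fun h => hnd (h.mul_left _)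
  have hfp : (fp d (fun i => MvPolynomial.eval z (G.coeff i))).map (Int.castRingHom (ZMod p)) = G.map ψ := by
    have h1 : fp d (fun i => MvPolynomial.eval z (G.coeff i)) = G.map (MvPolynomial.eval z) := by
      have h2 : (G.map (MvPolynomial.eval z)).natDegree < d + 1 :=
        Nat.lt_succ_of_le (natDegree_map_le.trans hdeg.le)
      rw [as_sum_range_C_mul_X_pow' (G.map (MvPolynomial.eval z)) h2]
      unfold fp
      refine Finset.sum_congr rfl fun i _ => ?_
      rw [coeff_map]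
    rw [h1, Polynomial.map_map, hψ]
  refine ⟨hp, ?_, Or.inl ?_⟩
  · rw [hfp]
    apply Separable.squarefree
    have h1 := congrArg (Polynomial.map ψ) huv
    rw [Polynomial.map_add, Polynomial.map_mul, Polynomial.map_mul, map_C, ← derivative_map] at h1
    refine ⟨C ((ψ Φ0)⁻¹) * u.map ψ, C ((ψ Φ0)⁻¹) * v.map ψ, ?_⟩
    have h2 : (C ((ψ Φ0)⁻¹) * C (ψ Φ0) : (ZMod p)[X]) = 1 := by
      rw [← C_mul, inv_mul_cancel₀ hψ0, C_1]
    linear_combination C ((ψ Φ0)⁻¹) * h1 + h2
  · show ((MvPolynomial.eval z (G.coeff d) : ℤ) : ZMod p) ≠ 0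
    have h1 : G.coeff d = MvPolynomial.C a := by
      rw [← hlc, leadingCoeff, hdeg]
    rw [h1, MvPolynomial.eval_C]
    exact ha0

end Pool.Agent.L0h46.CY
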