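import Pool.Agent.L0h46.CY.Stm

/-!
Project CY: several variables.
-/

set_option autoImplicit false

namespace Pool.Agent.L0h46.CY

open Finset
open Pool.Agent.L0h46.CV (fm MF Gd)

/-- the number of integral points of a box -/
theorem boxn (n : ℕ) (B : ℝ) (hB : 1 ≤ B) : {x : Fin n → ℤ | ∀ i, |(x i : ℝ)| ≤ B}.Finite ∧
    ∀ E : Finset (Fin n → ℤ), (∀ x ∈ E, ∀ i, |(x i : ℝ)| ≤ B) → (E.card : ℝ) ≤ (3 * B) ^ n := by
  classical
  have hsub : ∀ x : Fin n → ℤ, (∀ i, |(x i : ℝ)| ≤ B) →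
      x ∈ Fintype.piFinset fun _ : Fin n => Icc (-(⌊B⌋₊ : ℤ)) ⌊B⌋₊ := by
    intro x hx
    rw [Fintype.mem_piFinset]
    intro i
    have h1 : ((x i).natAbs : ℝ) ≤ B := by
      rw [Nat.cast_natAbs, Int.cast_abs]
      exact hx i
    have h2 := Nat.le_floor h1
    rw [mem_Icc]
    omega
  refine ⟨Set.Finite.subset (Finset.finite_toSet _) fun x hx => Finset.mem_coe.2 (hsub x hx), ?_⟩
  intro E hE
  have h1 := card_le_card fun x hx => hsub x (hE x hx)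
  rw [Fintype.card_piFinset_const, Int.card_Icc] at h1
  have h2 : ((⌊B⌋₊ : ℤ) + 1 - -(⌊B⌋₊ : ℤ)).toNat = 2 * ⌊B⌋₊ + 1 := by omega
  rw [h2] at h1
  have h3 : (E.card : ℝ) ≤ (2 * (⌊B⌋₊ : ℝ) + 1) ^ n := by exact_mod_cast h1
  refine h3.trans (pow_le_pow_left₀ (by positivity) ?_ n)
  have := Nat.floor_le (by linarith : 0 ≤ B)
  linarith

theorem box1 (B : ℝ) (hB : 1 ≤ B) (E : Finset ℤ) (hE : ∀ a ∈ E, |(a : ℝ)| ≤ B) :
    (E.card : ℝ) ≤ 3 * B := by
  have hsub : E ⊆ Icc (-(⌊B⌋₊ : ℤ)) ⌊B⌋₊ := by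
    intro a ha
    have h1 : (a.natAbs : ℝ) ≤ B := by
      rw [Nat.cast_natAbs, Int.cast_abs]
      exact hE a ha
    have h2 := Nat.le_floor h1
    rw [mem_Icc]
    omega
  have h2 := card_le_card hsub
  rw [Int.card_Icc] at h2
  have h3 : E.card ≤ 2 * ⌊B⌋₊ + 1 := by omega
  have h4 : (E.card : ℝ) ≤ 2 * (⌊B⌋₊ : ℝ) + 1 := by exact_mod_cast h3
  have h5 := Nat.floor_le (by linarith : 0 ≤ B)
  linarith

/-- **several variables** -/
theorem fin (hOne : S_ONE) (hBez : S_BEZ) (hShr : S_SHR) (hGrw : S_GRW) (hSz : S_SZ) : S_FIN := by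
  classical
  intro n d m F hd hFd hsq hm hdm S ε hε
  obtain ⟨v, G, a, ha, hGd, hGl, hGs, hGe⟩ := hShr n d F (by omega) hFd hsq
  obtain ⟨Φ, hΦ, hbad⟩ := hBez n d G a (by omega) hGd ha hGl hGs
  obtain ⟨M1, hM1⟩ := hGrw n Φ
  obtain ⟨M2, hM2⟩ := hGrw (n + 1) F
  obtain ⟨V, hV⟩ : ∃ V : ℕ, ∀ i, |(v i : ℝ)| ≤ V := by
    refine ⟨∑ i, (v i).natAbs, fun i => ?_⟩
    have h1 : (v i).natAbs ≤ ∑ i, (v i).natAbs :=
      single_le_sum (f := fun i => (v i).natAbs) (fun _ _ => Nat.zero_le _) (mem_univ i)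
    have h2 : (((v i).natAbs : ℕ) : ℝ) ≤ ((∑ i, (v i).natAbs : ℕ) : ℝ) := by exact_mod_cast h1
    rwa [Nat.cast_natAbs, Int.cast_abs] at h2
  obtain ⟨W, hW⟩ : ∃ W : ℝ, W = 1 + (V : ℝ) := ⟨_, rfl⟩
  have hW1 : 1 ≤ W := by
    rw [hW]
    linarith [(Nat.cast_nonneg V : (0 : ℝ) ≤ V)]
  obtain ⟨M, hMa, hMb, hMc⟩ : ∃ M : ℕ, M1 ≤ M ∧ Φ.totalDegree ≤ M ∧ (M2 : ℝ) * W ^ d ≤ M := by
    refine ⟨M1 + Φ.totalDegree + ⌈(M2 : ℝ) * W ^ d⌉₊, by omega, by omega, ?_⟩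
    have h1 := Nat.le_ceil ((M2 : ℝ) * W ^ d)
    have h2 : ⌈(M2 : ℝ) * W ^ d⌉₊ ≤ M1 + Φ.totalDegree + ⌈(M2 : ℝ) * W ^ d⌉₊ := by omega
    exact h1.trans (by exact_mod_cast h2)
  obtain ⟨K1, hK1, h1⟩ := hOne d m hd hm hdm S M ε hε
  obtain ⟨K2, hK2, h2⟩ := hSz n Φ hΦ
  obtain ⟨g, hg⟩ : ∃ g : ℝ, g = max (1 / 2 + 1 / (2 * (m : ℝ))) (d / (2 * (m : ℝ) + 1)) := ⟨_, rfl⟩
  rw [← hg] at h1 ⊢
  have hg0 : 0 ≤ g := by
    rw [hg]
    exact le_trans (by positivity) (le_max_left _ _)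
  refine ⟨3 ^ n * K1 * W ^ ((n : ℝ) + g + ε) + 3 * K2 * W ^ n, by positivity, fun B hB => ?_⟩
  have hBpos : 0 < B := by linarith
  have hfin : (Pn n F m S B).Finite := (boxn (n + 1) B hB).1.subset fun x hx => hx.1
  refine ⟨hfin, ?_⟩
  rw [Set.ncard_eq_toFinset_card _ hfin]
  obtain ⟨E, hEdef⟩ : ∃ E : Finset (Fin (n + 1) → ℤ), E = hfin.toFinset := ⟨_, rfl⟩
  rw [← hEdef]
  have hE : ∀ x ∈ E, x ∈ Pn n F m S B := fun x hx => by
    rw [hEdef] at hx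
    exact hfin.mem_toFinset.1 hx
  clear hEdef
  obtain ⟨B', hB'⟩ : ∃ B' : ℝ, B' = W * B := ⟨_, rfl⟩
  have hBB' : B ≤ B' := by
    rw [hB']
    nlinarith
  have hB'1 : 1 ≤ B' := hB.trans hBB'
  have hB'pos : 0 < B' := by linarith
  -- the projection
  obtain ⟨π, hπ⟩ : ∃ π : (Fin (n + 1) → ℤ) → (Fin n → ℤ), π = fun x i => x i.succ - x 0 * v i :=
    ⟨_, rfl⟩
  have hrec : ∀ x : Fin (n + 1) → ℤ, (Fin.cons (x 0) fun i => π x i + x 0 * v i) = x := by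
    intro x
    rw [hπ]
    funext i
    refine Fin.cases ?_ (fun j => ?_) i
    · simp
    · simp
  have hπB : ∀ x ∈ E, ∀ i, |(π x i : ℝ)| ≤ B' := by
    intro x hx i
    rw [hπ]
    push_cast
    have h3 := (hE x hx).1 i.succ
    have h4 := (hE x hx).1 0
    have h5 := hV i
    refine (abs_sub _ _).trans ?_
    rw [abs_mul, hB', hW]
    have h6 : |(x 0 : ℝ)| * |(v i : ℝ)| ≤ B * V :=
      mul_le_mul h4 h5 (abs_nonneg _) hBpos.le
    linarith
  have hval : ∀ z : Fin n → ℤ, (∀ i, |(z i : ℝ)| ≤ B') → ∀ t : ℤ, |(t : ℝ)| ≤ B' →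
      |(fm d (fun i => MvPolynomial.eval z (G.coeff i)) (t, 1) : ℝ)| ≤ M * B' ^ d := by
    intro z hz t ht
    rw [← hGe z t]
    have h3 : ∀ i : Fin (n + 1), |(((Fin.cons t fun i => z i + t * v i : Fin (n + 1) → ℤ) i : ℤ) : ℝ)|
        ≤ W * B' := by
      intro i
      refine Fin.cases ?_ (fun j => ?_) i
      · rw [Fin.cons_zero]
        refine ht.trans ?_
        nlinarith
      · rw [Fin.cons_succ]
        push_cast
        refine (abs_add_le _ _).trans ?_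
        rw [abs_mul, hW]
        have h6 : |(t : ℝ)| * |(v j : ℝ)| ≤ B' * V :=
          mul_le_mul ht (hV j) (abs_nonneg _) hB'pos.le
        have := hz j
        linarith
    have h4 := hM2 (W * B') _ (by nlinarith) h3
    rw [hFd] at h4
    refine h4.trans ?_
    rw [mul_pow, ← mul_assoc]
    exact mul_le_mul_of_nonneg_right hMc (by positivity)
  have hΦB : ∀ z : Fin n → ℤ, (∀ i, |(z i : ℝ)| ≤ B') →
      |((MvPolynomial.eval z Φ : ℤ) : ℝ)| ≤ M * B' ^ M := by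
    intro z hz
    refine (hM1 B' z hB'1 hz).trans ?_
    have h3 : (M1 : ℝ) ≤ M := by exact_mod_cast hMa
    have h4 : B' ^ Φ.totalDegree ≤ B' ^ M := pow_le_pow_right₀ hB'1 hMb
    gcongr
  -- the fibres
  obtain ⟨Zs, hZs⟩ : ∃ Zs : Finset (Fin n → ℤ), Zs = E.image π := ⟨_, rfl⟩
  have hZB : ∀ z ∈ Zs, ∀ i, |(z i : ℝ)| ≤ B' := by
    intro z hz
    rw [hZs, mem_image] at hz
    obtain ⟨x, hx, rfl⟩ := hz
    exact hπB x hx
  have hsum : (E.card : ℝ) = ∑ z ∈ Zs, ((E.filter fun x => π x = z).card : ℝ) := by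
    rw [hZs]
    exact_mod_cast card_eq_sum_card_image π E
  have hfib : ∀ z : Fin n → ℤ, ((E.filter fun x => π x = z).image fun x => x 0).card =
      (E.filter fun x => π x = z).card := by
    intro z
    apply card_image_of_injOn
    intro x hx y hy hxy
    rw [mem_coe, mem_filter] at hx hy
    have hxy' : x 0 = y 0 := hxy
    rw [← hrec x, ← hrec y, hx.2, hy.2, hxy']
  have hgood : ∀ z ∈ Zs, MvPolynomial.eval z Φ ≠ 0 →
      ((E.filter fun x => π x = z).card : ℝ) ≤ K1 * B' ^ (g + ε) := by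
    intro z hz hz0
    rw [← hfib z]
    refine h1 (fun i => MvPolynomial.eval z (G.coeff i)) (MvPolynomial.eval z Φ) B' hB'1 hz0
      (hΦB z (hZB z hz)) (fun p hp hpd => hbad z p hp hpd) (hval z (hZB z hz)) _ ?_
    intro t ht
    rw [mem_image] at ht
    obtain ⟨x, hx, rfl⟩ := ht
    rw [mem_filter] at hx
    obtain ⟨hxB, hx0, hxf⟩ := hE x hx.1
    have h3 : fm d (fun i => MvPolynomial.eval z (G.coeff i)) (x 0, 1) = MvPolynomial.eval x F := by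
      rw [← hGe z (x 0), ← hx.2, hrec x]
    rw [h3]
    exact ⟨(hxB 0).trans hBB', hx0, hxf⟩
  have hall : ∀ z ∈ Zs, ((E.filter fun x => π x = z).card : ℝ) ≤ 3 * B := by
    intro z _
    rw [← hfib z]
    refine box1 B hB _ ?_
    intro t ht
    rw [mem_image] at ht
    obtain ⟨x, hx, rfl⟩ := ht
    rw [mem_filter] at hx
    exact (hE x hx.1).1 0
  have hsplit : (E.card : ℝ) ≤ Zs.card * (K1 * B' ^ (g + ε)) +
      (Zs.filter fun z => MvPolynomial.eval z Φ = 0).card * (3 * B) := by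
    rw [hsum, ← sum_filter_add_sum_filter_not Zs (fun z => MvPolynomial.eval z Φ = 0), add_comm]
    refine add_le_add ?_ ?_
    · calc ∑ z ∈ Zs.filter fun z => ¬ MvPolynomial.eval z Φ = 0,
            ((E.filter fun x => π x = z).card : ℝ) ≤
            ∑ _z ∈ Zs.filter fun z => ¬ MvPolynomial.eval z Φ = 0, K1 * B' ^ (g + ε) := by
            refine sum_le_sum fun z hz => ?_
            rw [mem_filter] at hz
            exact hgood z hz.1 hz.2
        _ = ((Zs.filter fun z => ¬ MvPolynomial.eval z Φ = 0).card : ℝ) *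
            (K1 * B' ^ (g + ε)) := by rw [sum_const, nsmul_eq_mul]
        _ ≤ Zs.card * (K1 * B' ^ (g + ε)) := by
            have h3 : ((Zs.filter fun z => ¬ MvPolynomial.eval z Φ = 0).card : ℝ) ≤ Zs.card := by
              exact_mod_cast card_filter_le _ _
            exact mul_le_mul_of_nonneg_right h3 (by positivity)
    · calc ∑ z ∈ Zs.filter fun z => MvPolynomial.eval z Φ = 0,
            ((E.filter fun x => π x = z).card : ℝ) ≤
            ∑ _z ∈ Zs.filter fun z => MvPolynomial.eval z Φ = 0, 3 * B := by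
            refine sum_le_sum fun z hz => ?_
            rw [mem_filter] at hz
            exact hall z hz.1
        _ = _ := by rw [sum_const, nsmul_eq_mul]
  have hc1 : (Zs.card : ℝ) ≤ (3 * B') ^ n := (boxn n B' hB'1).2 Zs hZB
  have hc2 : ((Zs.filter fun z => MvPolynomial.eval z Φ = 0).card : ℝ) ≤ K2 * B' ^ n / B' := by
    refine h2 B' hB'1 _ fun z hz => ?_
    rw [mem_filter] at hz
    exact ⟨hZB z hz.1, hz.2⟩
  have hp1 : (3 * B') ^ n * (K1 * B' ^ (g + ε)) =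
      3 ^ n * K1 * W ^ ((n : ℝ) + g + ε) * B ^ ((n : ℝ) + g + ε) := by
    have h3 : B' ^ n * B' ^ (g + ε) = B' ^ ((n : ℝ) + g + ε) := by
      rw [← Real.rpow_natCast, ← Real.rpow_add hB'pos]
      congr 1
      ring
    have h4 : B' ^ ((n : ℝ) + g + ε) = W ^ ((n : ℝ) + g + ε) * B ^ ((n : ℝ) + g + ε) := by
      rw [hB', Real.mul_rpow (by linarith) hBpos.le]
    calc (3 * B') ^ n * (K1 * B' ^ (g + ε)) = 3 ^ n * K1 * (B' ^ n * B' ^ (g + ε)) := by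
          rw [mul_pow]
          ring
      _ = _ := by
          rw [h3, h4]
          ring
  have hp2 : K2 * B' ^ n / B' * (3 * B) ≤ 3 * K2 * W ^ n * B ^ ((n : ℝ) + g + ε) := by
    have h3 : B ^ n ≤ B ^ ((n : ℝ) + g + ε) := by
      rw [← Real.rpow_natCast]
      exact Real.rpow_le_rpow_of_exponent_le hB (by linarith)
    have h4 : K2 * B' ^ n / B' * (3 * B) ≤ K2 * B' ^ n / B' * (3 * B') := by gcongr
    have h5 : K2 * B' ^ n / B' * (3 * B') = 3 * K2 * (W ^ n * B ^ n) := by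
      rw [← mul_pow, ← hB']
      field_simp
    calc K2 * B' ^ n / B' * (3 * B) ≤ 3 * K2 * (W ^ n * B ^ n) := h4.trans h5.le
      _ = 3 * K2 * W ^ n * B ^ n := by ring
      _ ≤ _ := by gcongr
  calc (E.card : ℝ) ≤ Zs.card * (K1 * B' ^ (g + ε)) +
        (Zs.filter fun z => MvPolynomial.eval z Φ = 0).card * (3 * B) := hsplit
    _ ≤ (3 * B') ^ n * (K1 * B' ^ (g + ε)) + K2 * B' ^ n / B' * (3 * B) := by gcongr
    _ ≤ 3 ^ n * K1 * W ^ ((n : ℝ) + g + ε) * B ^ ((n : ℝ) + g + ε) +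
        3 * K2 * W ^ n * B ^ ((n : ℝ) + g + ε) := add_le_add hp1.le hp2
    _ = (3 ^ n * K1 * W ^ ((n : ℝ) + g + ε) + 3 * K2 * W ^ n) * B ^ ((n : ℝ) + g + ε) := by ring

end Pool.Agent.L0h46.CY
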