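import Pool.Agent.L0h46.CY.Stm
import Pool.Agent.L0h46.CV.Asm

/-!
Project CY: one variable, uniformly in the polynomial.
-/

set_option autoImplicit false

namespace Pool.Agent.L0h46.CY

open Finset Polynomial
open Pool.Agent.L0h46.CV (fm MF Gd Pts ht full_count S_FUL S_DIV S_SPL)

/-- the points at which one of the numbers `D ∈ Ds` divides the form -/
theorem cover (hTU : S_TU) (hF : S_FUL) (d : ℕ) (hd : 1 ≤ d) (m : ℕ) (hm : 1 ≤ m)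
    (σ ε : ℝ) (hσ : 1 / (m : ℝ) < σ) (hσ1 : σ ≤ 1) (hε : 0 < ε) :
    ∃ K : ℝ, 0 < K ∧ ∀ (c : ℕ → ℤ) (B V W : ℝ), 1 ≤ B → 0 < V → 1 ≤ W → ∀ Ds : Finset ℕ,
      (∀ D ∈ Ds, MF m D ∧ (∀ p : ℕ, p.Prime → p ∣ D → Gd d c p) ∧ V ≤ (D : ℝ) ∧ (D : ℝ) ≤ W) →
      ∀ E : Finset ℤ, (∀ a ∈ E, |(a : ℝ)| ≤ B ∧ ∃ D ∈ Ds, (D : ℤ) ∣ fm d c (a, 1)) →
      (E.card : ℝ) ≤ K * W ^ ε * (Ds.card + B * V ^ (σ - 1)) := by
  classical
  obtain ⟨K1, hK1, h1⟩ := hTU d hd ε hε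
  obtain ⟨K2, hK2, h2⟩ := full_count hF m σ hm hσ
  refine ⟨K1 * (1 + K2), by positivity, ?_⟩
  intro c B V W hB hV hW Ds hDs E hE
  have hsub : E ⊆ Ds.biUnion fun D => E.filter fun a => (D : ℤ) ∣ fm d c (a, 1) := by
    intro x hx
    obtain ⟨-, D, hD, hdvd⟩ := hE x hx
    exact mem_biUnion.2 ⟨D, hD, mem_filter.2 ⟨hx, hdvd⟩⟩
  have h3 : (E.card : ℝ) ≤ ∑ D ∈ Ds, ((E.filter fun a => (D : ℤ) ∣ fm d c (a, 1)).card : ℝ) := by
    exact_mod_cast (card_le_card hsub).trans card_biUnion_le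
  have hP : 0 ≤ W ^ ε := by positivity
  have h4 : ∀ D ∈ Ds, ((E.filter fun a => (D : ℤ) ∣ fm d c (a, 1)).card : ℝ) ≤
      K1 * W ^ ε * (1 + B * (1 / (D : ℝ))) := by
    intro D hD
    obtain ⟨hMF, hg, hVD, hDW⟩ := hDs D hD
    refine (h1 c B hB D hMF.1 hg _ ?_).trans ?_
    · intro x hx
      rw [mem_filter] at hx
      exact ⟨(hE x hx.1).1, hx.2⟩
    · have h5 : (D : ℝ) ^ ε ≤ W ^ ε :=
        Real.rpow_le_rpow (by positivity) hDW hε.le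
      have h6 : B / (D : ℝ) = B * (1 / (D : ℝ)) := by ring
      rw [h6]
      have h7 : 0 ≤ 1 + B * (1 / (D : ℝ)) := by positivity
      gcongr
  have h5 := (h2 Ds fun D hD => (hDs D hD).1).2 hσ1 V hV fun D hD => (hDs D hD).2.2.1
  have hVp : 0 ≤ V ^ (σ - 1) := by positivity
  calc (E.card : ℝ) ≤ ∑ D ∈ Ds, K1 * W ^ ε * (1 + B * (1 / (D : ℝ))) :=
        h3.trans (sum_le_sum h4)
    _ = K1 * W ^ ε * (Ds.card + B * ∑ D ∈ Ds, 1 / (D : ℝ)) := by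
        rw [← mul_sum, sum_add_distrib, ← mul_sum, sum_const, nsmul_eq_mul, mul_one]
    _ ≤ K1 * W ^ ε * (Ds.card + B * (K2 * V ^ (σ - 1))) := by gcongr
    _ ≤ K1 * W ^ ε * ((1 + K2) * (Ds.card + B * V ^ (σ - 1))) := by
        refine mul_le_mul_of_nonneg_left ?_ (by positivity)
        have h8 : (0 : ℝ) ≤ Ds.card := Nat.cast_nonneg _
        have h9 : 0 ≤ B * V ^ (σ - 1) := by positivity
        nlinarith
    _ = K1 * (1 + K2) * W ^ ε * (Ds.card + B * V ^ (σ - 1)) := by ring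

/-- the points at which the form is `k y ^ t` -/
theorem cover1 (hWU : S_WU) (d : ℕ) (hd : 3 ≤ d) (T M : ℕ) (ε : ℝ)
    (hε : 0 < ε) : ∃ K : ℝ, 0 < K ∧ ∀ (c : ℕ → ℤ) (D0 : ℤ) (B : ℝ), 1 ≤ B → D0 ≠ 0 →
      |(D0 : ℝ)| ≤ M * B ^ M → (∀ p : ℕ, p.Prime → ¬ (p : ℤ) ∣ D0 → Gd d c p) → ∀ Ks : Finset ℤ,
      (∀ k ∈ Ks, k ≠ 0 ∧ |(k : ℝ)| ≤ M * B ^ M) → ∀ E : Finset ℤ,
      (∀ a ∈ E, |(a : ℝ)| ≤ B ∧ ∃ k ∈ Ks, ∃ t : ℕ, t.Prime ∧ t ≤ T ∧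
        ∃ y : ℤ, fm d c (a, 1) = k * y ^ t) → (E.card : ℝ) ≤ K * Ks.card * B ^ ((1 : ℝ) / 2 + ε) := by
  classical
  have h0 : ∀ t : ℕ, ∃ K : ℝ, 0 < K ∧ (t.Prime → ∀ (c : ℕ → ℤ) (D0 : ℤ) (B : ℝ), 1 ≤ B → D0 ≠ 0 →
      |(D0 : ℝ)| ≤ M * B ^ M → (∀ p : ℕ, p.Prime → ¬ (p : ℤ) ∣ D0 → Gd d c p) → ∀ k : ℤ, k ≠ 0 →
      |(k : ℝ)| ≤ M * B ^ M → ∀ E : Finset ℤ, (∀ a ∈ E, |(a : ℝ)| ≤ B ∧
        ∃ y : ℤ, fm d c (a, 1) = k * y ^ t) → (E.card : ℝ) ≤ K * B ^ ((1 : ℝ) / 2 + ε)) := by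
    intro t
    by_cases ht : t.Prime
    · obtain ⟨K, hK, h⟩ := hWU t d ht hd M ε hε
      exact ⟨K, hK, fun _ => h⟩
    · exact ⟨1, one_pos, fun h => absurd h ht⟩
  choose Kt hKt h1 using h0
  refine ⟨∑ t ∈ range (T + 1), Kt t, sum_pos (fun t _ => hKt t) (by simp), ?_⟩
  intro c D0 B hB hD0 hD0M hg Ks hKs E hE
  have hsub : E ⊆ Ks.biUnion fun k => (range (T + 1)).biUnion fun t =>
      E.filter fun a => t.Prime ∧ ∃ y : ℤ, fm d c (a, 1) = k * y ^ t := by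
    intro x hx
    obtain ⟨-, k, hk, t, ht, htd, y, hy⟩ := hE x hx
    exact mem_biUnion.2 ⟨k, hk, mem_biUnion.2 ⟨t, mem_range.2 (by omega),
      mem_filter.2 ⟨hx, ht, y, hy⟩⟩⟩
  have h3 : (E.card : ℝ) ≤ ∑ k ∈ Ks, ∑ t ∈ range (T + 1),
      ((E.filter fun a => t.Prime ∧ ∃ y : ℤ, fm d c (a, 1) = k * y ^ t).card : ℝ) := by
    have h4 : E.card ≤ ∑ k ∈ Ks, ∑ t ∈ range (T + 1),
        (E.filter fun a => t.Prime ∧ ∃ y : ℤ, fm d c (a, 1) = k * y ^ t).card :=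
      ((card_le_card hsub).trans card_biUnion_le).trans (sum_le_sum fun k _ => card_biUnion_le)
    exact_mod_cast h4
  refine h3.trans ?_
  have h4 : ∀ k ∈ Ks, ∑ t ∈ range (T + 1),
      ((E.filter fun a => t.Prime ∧ ∃ y : ℤ, fm d c (a, 1) = k * y ^ t).card : ℝ) ≤
      (∑ t ∈ range (T + 1), Kt t) * B ^ ((1 : ℝ) / 2 + ε) := by
    intro k hk
    rw [sum_mul]
    refine sum_le_sum fun t _ => ?_
    by_cases ht : t.Prime
    · refine h1 t ht c D0 B hB hD0 hD0M hg k (hKs k hk).1 (hKs k hk).2 _ ?_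
      intro x hx
      rw [mem_filter] at hx
      exact ⟨(hE x hx.1).1, hx.2.2⟩
    · have : (E.filter fun a => t.Prime ∧ ∃ y : ℤ, fm d c (a, 1) = k * y ^ t) = ∅ := by
        rw [filter_eq_empty_iff]
        rintro x - ⟨h, -⟩
        exact ht h
      rw [this, card_empty, Nat.cast_zero]
      have := hKt t
      positivity
  refine (sum_le_sum h4).trans ?_
  rw [sum_const, nsmul_eq_mul]
  apply le_of_eq
  ring

/-- the exponents -/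
theorem exps (m d : ℕ) (hm : 2 ≤ m) (hd : 3 ≤ d) (hdm : d ≤ 2 * m) (ε : ℝ) (hε : 0 < ε)
    (hε1 : ε ≤ 1) (G : ℝ)
    (hG : G = max (1 / 2 + 1 / (2 * (m : ℝ))) (d / (2 * (m : ℝ) + 1))) :
    ∃ e1 σ θ : ℝ, 0 < e1 ∧ 1 / (m : ℝ) < σ ∧ σ ≤ 1 ∧ 0 < θ ∧ 0 ≤ G ∧
      (d : ℝ) + ε / 4 ≤ θ * (2 * (m : ℝ) + 1) ∧ (d : ℝ) + ε / 4 ≤ θ * (2 * (d : ℝ) + 1) ∧
      d * e1 + σ / 2 + ((1 : ℝ) / 2 + e1) ≤ G + ε ∧
      e1 * (θ * m) + (G + ε / 4) ≤ G + ε ∧ θ ≤ G + ε / 4 ∧ 1 / 2 + σ / 2 ≤ G + ε / 4 ∧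
      e1 + (G + ε / 4) ≤ G + ε ∧ σ ≤ G + ε / 4 := by
  have hmR : (2 : ℝ) ≤ m := by exact_mod_cast hm
  have hdR : (3 : ℝ) ≤ d := by exact_mod_cast hd
  have hdmR : (d : ℝ) ≤ 2 * m := by exact_mod_cast hdm
  obtain ⟨e1, he1def⟩ : ∃ e1 : ℝ, e1 = ε / (8 * (m + d + 2)) := ⟨_, rfl⟩
  have he1 : 0 < e1 := by rw [he1def]; positivity
  have he1m : e1 * m * 8 + e1 * d * 8 + e1 * 16 = ε := by
    rw [he1def]
    field_simp
    ring
  have hem : 0 ≤ e1 * m := by positivity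
  have hed : 0 ≤ e1 * d := by positivity
  have hem2 : e1 * 2 ≤ e1 * m := mul_le_mul_of_nonneg_left hmR he1.le
  have hed3 : e1 * 3 ≤ e1 * d := mul_le_mul_of_nonneg_left hdR he1.le
  obtain ⟨M1, hM1⟩ : ∃ M1 : ℝ, M1 = 1 / (m : ℝ) := ⟨_, rfl⟩
  have hminv : M1 ≤ 1 / 2 := by
    rw [hM1, div_le_div_iff₀ (by positivity) (by norm_num)]
    linarith
  have hminv0 : 0 < M1 := by rw [hM1]; positivity
  have h2m : 1 / (2 * (m : ℝ)) = M1 / 2 := by rw [hM1]; ring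
  obtain ⟨D1, hD1⟩ : ∃ D1 : ℝ, D1 = d / (2 * (m : ℝ) + 1) := ⟨_, rfl⟩
  have hD1m : D1 * (2 * (m : ℝ) + 1) = d := by rw [hD1]; field_simp
  have hD12 : D1 < 1 := by
    rw [hD1, div_lt_iff₀ (by positivity)]
    linarith
  rw [h2m, ← hD1] at hG
  have hG1 : 1 / 2 + M1 / 2 ≤ G := by rw [hG]; exact le_max_left _ _
  have hG2 : D1 ≤ G := by rw [hG]; exact le_max_right _ _
  obtain ⟨θ, hθ⟩ : ∃ θ : ℝ, θ = max (1 / 2) D1 + ε / 4 := ⟨_, rfl⟩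
  have h1 : max (1 / 2) D1 ≤ G := max_le (by linarith) hG2
  have h2 : (1 / 2 : ℝ) ≤ max (1 / 2) D1 := le_max_left _ _
  have h3 : D1 ≤ max (1 / 2) D1 := le_max_right _ _
  have h4 : max (1 / 2) D1 ≤ 1 := max_le (by norm_num) hD12.le
  rw [← hM1]
  refine ⟨e1, M1 + e1, θ, he1, by linarith, by linarith, by linarith, by linarith, ?_, ?_, ?_, ?_,
    by linarith, by linarith, by linarith, by linarith⟩
  · have h5 : (D1 + ε / 4) * (2 * (m : ℝ) + 1) ≤ θ * (2 * (m : ℝ) + 1) :=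
      mul_le_mul_of_nonneg_right (by linarith) (by positivity)
    have h6 : 0 ≤ ε / 4 * m := by positivity
    have h7 : (D1 + ε / 4) * (2 * (m : ℝ) + 1) = D1 * (2 * (m : ℝ) + 1) + 2 * (ε / 4 * m) + ε / 4 := by
      ring
    linarith
  · have h5 : (1 / 2 + ε / 4) * (2 * (d : ℝ) + 1) ≤ θ * (2 * (d : ℝ) + 1) :=
      mul_le_mul_of_nonneg_right (by linarith) (by positivity)
    have h6 : 0 ≤ ε / 4 * d := by positivity
    have h7 : (1 / 2 + ε / 4) * (2 * (d : ℝ) + 1) = d + 1 / 2 + 2 * (ε / 4 * d) + ε / 4 := by ring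
    linarith
  · have : (d : ℝ) * e1 = e1 * d := mul_comm _ _
    rw [this]
    linarith
  · have h5 : e1 * (θ * m) ≤ e1 * m * 2 := by
      have : θ * m ≤ 2 * m := mul_le_mul_of_nonneg_right (by linarith) (by positivity)
      calc e1 * (θ * m) ≤ e1 * (2 * m) := mul_le_mul_of_nonneg_left this he1.le
        _ = e1 * m * 2 := by ring
    linarith

/-- the first part -/
theorem part1 (B KW KS KF CF e1 σ G ε : ℝ) (hB1 : 1 ≤ B) (hKW : 0 < KW) (hKS : 0 < KS)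
    (hKF : 0 < KF) (hCF : 1 ≤ CF) (d : ℕ) (X Y : ℝ) (hX : X = CF * B ^ d)
    (hY : Y = B ^ ((1 : ℝ) / 2)) (a s k n : ℝ) (hk : k ≤ 2 * (s * a))
    (hs : s ≤ KS * X ^ e1) (ha0 : 0 ≤ a) (ha : a ≤ KF * Y ^ σ)
    (hn : n ≤ KW * k * B ^ ((1 : ℝ) / 2 + e1)) (he : d * e1 + σ / 2 + ((1 : ℝ) / 2 + e1) ≤ G + ε) :
    n ≤ KW * (2 * (KS * CF ^ e1 * KF)) * B ^ (G + ε) := by
  have hBpos : 0 < B := by linarith
  have hX0 : 0 ≤ X := by rw [hX]; positivity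
  have h2 : s * a ≤ (KS * X ^ e1) * (KF * Y ^ σ) := mul_le_mul hs ha ha0 (by positivity)
  have h3 : X ^ e1 = CF ^ e1 * B ^ (d * e1) := by
    rw [hX, Real.mul_rpow (by linarith) (by positivity), ← Real.rpow_natCast,
      ← Real.rpow_mul hBpos.le]
  have h4 : Y ^ σ = B ^ (σ / 2) := by
    rw [hY, ← Real.rpow_mul hBpos.le]
    congr 1
    ring
  calc n ≤ KW * k * B ^ ((1 : ℝ) / 2 + e1) := hn
    _ ≤ KW * (2 * ((KS * X ^ e1) * (KF * Y ^ σ))) * B ^ ((1 : ℝ) / 2 + e1) := by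
        have h5 : k ≤ 2 * ((KS * X ^ e1) * (KF * Y ^ σ)) := hk.trans (by linarith)
        gcongr
    _ = KW * (2 * (KS * CF ^ e1 * KF)) * (B ^ (d * e1) * B ^ (σ / 2) * B ^ ((1 : ℝ) / 2 + e1)) := by
        rw [h3, h4]
        ring
    _ = KW * (2 * (KS * CF ^ e1 * KF)) * B ^ (d * e1 + σ / 2 + ((1 : ℝ) / 2 + e1)) := by
        rw [← Real.rpow_add hBpos, ← Real.rpow_add hBpos]
    _ ≤ KW * (2 * (KS * CF ^ e1 * KF)) * B ^ (G + ε) :=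
        mul_le_mul_of_nonneg_left (Real.rpow_le_rpow_of_exponent_le hB1 he) (by positivity)

/-- the second part -/
theorem part2 (B KC e1 σ θ G ε : ℝ) (hB1 : 1 ≤ B) (hKC : 0 < KC) (m : ℕ) (Z R : ℝ)
    (hZ : Z = B ^ θ) (hR : R = B ^ ((1 : ℝ) / 2)) (n k : ℝ) (hk : k ≤ 2 * Z)
    (hn : n ≤ KC * (Z ^ m) ^ e1 * (k + B * R ^ (σ - 1)))
    (h1 : e1 * (θ * m) + (G + ε / 4) ≤ G + ε) (h2 : θ ≤ G + ε / 4)
    (h3 : 1 / 2 + σ / 2 ≤ G + ε / 4) : n ≤ KC * 3 * B ^ (G + ε) := by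
  have hBpos : 0 < B := by linarith
  have e2 : (Z ^ m) ^ e1 = B ^ (e1 * (θ * m)) := by
    rw [hZ, ← Real.rpow_natCast, ← Real.rpow_mul hBpos.le, ← Real.rpow_mul hBpos.le]
    congr 1
    ring
  have e3 : B * R ^ (σ - 1) = B ^ (1 / 2 + σ / 2) := by
    rw [hR, ← Real.rpow_mul hBpos.le]
    nth_rewrite 1 [← Real.rpow_one B]
    rw [← Real.rpow_add hBpos]
    congr 1
    ring
  have h4 : B ^ (1 / 2 + σ / 2) ≤ B ^ (G + ε / 4) := Real.rpow_le_rpow_of_exponent_le hB1 h3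
  have h5 : Z ≤ B ^ (G + ε / 4) := by
    rw [hZ]
    exact Real.rpow_le_rpow_of_exponent_le hB1 h2
  rw [e2, e3] at hn
  have h6 : k + B ^ (1 / 2 + σ / 2) ≤ 3 * B ^ (G + ε / 4) := by linarith
  calc n ≤ KC * B ^ (e1 * (θ * m)) * (k + B ^ (1 / 2 + σ / 2)) := hn
    _ ≤ KC * B ^ (e1 * (θ * m)) * (3 * B ^ (G + ε / 4)) :=
        mul_le_mul_of_nonneg_left h6 (by positivity)
    _ = KC * 3 * (B ^ (e1 * (θ * m)) * B ^ (G + ε / 4)) := by ring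
    _ = KC * 3 * B ^ (e1 * (θ * m) + (G + ε / 4)) := by rw [Real.rpow_add hBpos (e1 * (θ * m))]
    _ ≤ KC * 3 * B ^ (G + ε) :=
        mul_le_mul_of_nonneg_left (Real.rpow_le_rpow_of_exponent_le hB1 h1) (by positivity)

/-- the third part -/
theorem part3 (B KC KF e1 σ G ε : ℝ) (hB1 : 1 ≤ B) (hKC : 0 < KC) (hKF : 0 < KF) (Y : ℝ)
    (hY : Y = B ^ ((1 : ℝ) / 2)) (n k : ℝ) (hk : k ≤ KF * B ^ σ)
    (hn : n ≤ KC * B ^ e1 * (k + B * Y ^ (σ - 1)))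
    (h1 : e1 + (G + ε / 4) ≤ G + ε) (h2 : 1 / 2 + σ / 2 ≤ G + ε / 4)
    (h3 : σ ≤ G + ε / 4) : n ≤ KC * (KF + 1) * B ^ (G + ε) := by
  have hBpos : 0 < B := by linarith
  have e3 : B * Y ^ (σ - 1) = B ^ (1 / 2 + σ / 2) := by
    rw [hY, ← Real.rpow_mul hBpos.le]
    nth_rewrite 1 [← Real.rpow_one B]
    rw [← Real.rpow_add hBpos]
    congr 1
    ring
  have h4 : B ^ (1 / 2 + σ / 2) ≤ B ^ (G + ε / 4) := Real.rpow_le_rpow_of_exponent_le hB1 h2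
  have h5 : B ^ σ ≤ B ^ (G + ε / 4) := Real.rpow_le_rpow_of_exponent_le hB1 h3
  rw [e3] at hn
  have h6 : k + B ^ (1 / 2 + σ / 2) ≤ (KF + 1) * B ^ (G + ε / 4) := by
    have h7 : KF * B ^ σ ≤ KF * B ^ (G + ε / 4) := mul_le_mul_of_nonneg_left h5 hKF.le
    linarith
  calc n ≤ KC * B ^ e1 * (k + B ^ (1 / 2 + σ / 2)) := hn
    _ ≤ KC * B ^ e1 * ((KF + 1) * B ^ (G + ε / 4)) :=
        mul_le_mul_of_nonneg_left h6 (by positivity)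
    _ = KC * (KF + 1) * (B ^ e1 * B ^ (G + ε / 4)) := by ring
    _ = KC * (KF + 1) * B ^ (e1 + (G + ε / 4)) := by rw [Real.rpow_add hBpos e1]
    _ ≤ KC * (KF + 1) * B ^ (G + ε) :=
        mul_le_mul_of_nonneg_left (Real.rpow_le_rpow_of_exponent_le hB1 h1) (by positivity)

/-- the three kinds of points -/
theorem kinds (hD : S_DIV) (hP : S_SPL) (d : ℕ) (c : ℕ → ℤ) (m : ℕ) (hm : 2 ≤ m)
    (S0 S : Finset ℕ) (hS0 : S0 ⊆ S) (hSgood : ∀ p : ℕ, p.Prime → p ∉ S → Gd d c p)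
    (T : ℕ) (hT : 2 ≤ T) (X Y R Z : ℝ) (hY1 : 1 ≤ Y) (hR1 : 1 ≤ R) (hZ1 : 1 < Z) (hZ2m : X < Z ^ (2 * m + 1))
    (hZt : ∀ t : ℕ, Z ^ t ≤ X → t ≤ T) (B : ℝ) (x : ℤ × ℤ) (hx : x ∈ Pts d c m S0 B)
    (hxX : |(fm d c x : ℝ)| ≤ X) :
    (∃ s A : ℕ, (0 < s ∧ (s : ℝ) ≤ X ∧ ∀ p : ℕ, p.Prime → p ∣ s → p ∈ S) ∧
      (MF m A ∧ (A : ℝ) ≤ Y) ∧ ∃ k : ℤ, (k = ((s * A : ℕ) : ℤ) ∨ k = -((s * A : ℕ) : ℤ)) ∧
        ∃ t : ℕ, t.Prime ∧ t ≤ T ∧ ∃ y : ℤ, fm d c x = k * y ^ t) ∨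
    (∃ p : ℕ, p.Prime ∧ p ∉ S ∧ (p : ℝ) ≤ Z ∧ R < ((p ^ m : ℕ) : ℝ) ∧
      ((p ^ m : ℕ) : ℤ) ∣ fm d c x) ∨
    (∃ D : ℕ, MF m D ∧ (∀ p : ℕ, p.Prime → p ∣ D → Gd d c p) ∧ Y < (D : ℝ) ∧ (D : ℝ) ≤ Y * R ∧
      (D : ℤ) ∣ fm d c x) := by
  obtain ⟨hxc, hxB, hx0, hxf⟩ := hx
  obtain ⟨N, hNdef⟩ : ∃ N : ℕ, N = (fm d c x).natAbs := ⟨_, rfl⟩
  have hN0 : 0 < N := by rw [hNdef]; exact Int.natAbs_pos.2 hx0
  have hNX : (N : ℝ) ≤ X := by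
    rw [hNdef, Nat.cast_natAbs, Int.cast_abs]
    exact hxX
  have hfull : ∀ p : ℕ, p.Prime → p ∉ S → p ∣ N → p ^ m ∣ N := by
    intro p hp hpS hpN
    have h1 : p ∉ S0 := fun h => hpS (hS0 h)
    have h2 : (p : ℤ) ∣ fm d c x := by
      rw [hNdef] at hpN
      exact Int.natCast_dvd.2 hpN
    have h3 := hxf p hp h1 h2
    rw [hNdef]
    have h4 : ((p ^ m : ℕ) : ℤ) ∣ fm d c x := by exact_mod_cast h3
    exact Int.natCast_dvd.1 h4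
  obtain ⟨s, A, L, hN, hs, hA, hAp, hcase⟩ := hP m S Z N hm hZ1 hN0 hfull
  have hs0 : 0 < s := Nat.pos_of_ne_zero fun h => by
    rw [h, zero_mul, zero_mul] at hN
    omega
  have hAdvd : (A : ℤ) ∣ fm d c x := by
    apply Int.natCast_dvd.2
    rw [← hNdef, hN]
    exact Dvd.dvd.mul_right (Dvd.intro_left s rfl) L
  rcases hcase with ⟨t, y, ht, hLy, htZ⟩ | hcase
  · have htd : t ≤ T := by
      rcases htZ with rfl | htZ
      · omega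
      · exact hZt t (htZ.trans hNX)
    rcases le_or_gt (A : ℝ) Y with hAY | hAY
    · left
      refine ⟨s, A, ⟨hs0, ?_, hs⟩, ⟨hA, hAY⟩, ?_⟩
      · have h1 : s ≤ N := Nat.le_of_dvd hN0 (by rw [hN, mul_assoc]; exact Dvd.intro _ rfl)
        exact (Nat.cast_le.2 h1).trans hNX
      · rcases Int.natAbs_eq (fm d c x) with h | h
        · refine ⟨((s * A : ℕ) : ℤ), Or.inl rfl, t, ht, htd, (y : ℤ), ?_⟩
          rw [h, ← hNdef, hN, hLy]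
          push_cast
          ring
        · refine ⟨-((s * A : ℕ) : ℤ), Or.inr rfl, t, ht, htd, (y : ℤ), ?_⟩
          rw [h, ← hNdef, hN, hLy]
          push_cast
          ring
    · right
      by_cases hex : ∃ p : ℕ, p.Prime ∧ p ∣ A ∧ R < ((p ^ m : ℕ) : ℝ)
      · left
        obtain ⟨p, hp, hpA, hpR⟩ := hex
        obtain ⟨hpS, hpZ⟩ := hAp p hp hpA
        exact ⟨p, hp, hpS, hpZ, hpR, (Int.natCast_dvd_natCast.2 (hA.2 p hp hpA)).trans hAdvd⟩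
      · right
        push Not at hex
        obtain ⟨D, hDA, hDF, hDY, hDR⟩ := hD m A (by omega) hA Y R hY1 hR1
          (fun p hp hpA => by exact_mod_cast hex p hp hpA) hAY
        exact ⟨D, hDF, fun p hp hpD => hSgood p hp (hAp p hp (hpD.trans hDA)).1, hDY, hDR,
          (Int.natCast_dvd_natCast.2 hDA).trans hAdvd⟩
  · exfalso
    linarith

/-- the number of primes -/
theorem primes_card (D0 : ℤ) (hD0 : D0 ≠ 0) (M : ℕ) (B : ℝ) (hB : 1 ≤ B)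
    (h : |(D0 : ℝ)| ≤ M * B ^ M) :
    (D0.natAbs.primeFactors.card : ℝ) ≤ 2 * (M + M * Real.log B) := by
  have hn : D0.natAbs ≠ 0 := Int.natAbs_ne_zero.2 hD0
  have h1 : 2 ^ D0.natAbs.primeFactors.card ≤ D0.natAbs := by
    calc 2 ^ D0.natAbs.primeFactors.card ≤ ∏ p ∈ D0.natAbs.primeFactors, p :=
          Finset.pow_card_le_prod _ _ _ fun p hp => (Nat.prime_of_mem_primeFactors hp).two_le
      _ ≤ D0.natAbs := Nat.le_of_dvd (Nat.pos_of_ne_zero hn) (Nat.prod_primeFactors_dvd _)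
  have h2 : ((2 : ℝ)) ^ D0.natAbs.primeFactors.card ≤ M * B ^ M := by
    have h3 : ((2 : ℝ)) ^ D0.natAbs.primeFactors.card ≤ (D0.natAbs : ℝ) := by exact_mod_cast h1
    rw [Nat.cast_natAbs, Int.cast_abs] at h3
    exact h3.trans h
  have hM : 0 < M := by
    rcases Nat.eq_zero_or_pos M with h0 | h0
    · subst h0
      have : (0 : ℝ) < 2 ^ D0.natAbs.primeFactors.card := by positivity
      simp at h2
      linarith
    · exact h0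
  have hMR : (0 : ℝ) < M := by exact_mod_cast hM
  have h3 := Real.log_le_log (by positivity) h2
  rw [Real.log_pow, Real.log_mul hMR.ne' (by positivity), Real.log_pow] at h3
  have h4 : Real.log M ≤ M := (Real.log_le_sub_one_of_pos hMR).trans (by linarith)
  have h5 : (1 : ℝ) / 2 ≤ Real.log 2 := by
    have := Real.log_two_gt_d9
    linarith
  have h6 : (0 : ℝ) ≤ D0.natAbs.primeFactors.card := Nat.cast_nonneg _
  nlinarith

/-- **one variable** -/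
theorem one (hWU : S_WU) (hTU : S_TU) (hSU : S_SU) (hF : S_FUL) (hD : S_DIV)
    (hP : S_SPL) : S_ONE := by
  classical
  intro d m hd hm hdm S0 M ε0 hε0
  obtain ⟨ε, hεdef⟩ : ∃ ε : ℝ, ε = min ε0 1 := ⟨_, rfl⟩
  have hε : 0 < ε := by rw [hεdef]; exact lt_min hε0 one_pos
  have hε1 : ε ≤ 1 := by rw [hεdef]; exact min_le_right _ _
  have hεε0 : ε ≤ ε0 := by rw [hεdef]; exact min_le_left _ _
  obtain ⟨G, hG⟩ : ∃ G : ℝ, G = max (1 / 2 + 1 / (2 * (m : ℝ))) (d / (2 * (m : ℝ) + 1)) := ⟨_, rfl⟩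
  rw [← hG]
  obtain ⟨e1, σ, θ, he1, hσ, hσ1, hθ0, hG0, g1, g2, g3, g4, g5, g6, g7, g8⟩ :=
    exps m d hm hd hdm ε hε hε1 G hG
  obtain ⟨CF, hCFdef⟩ : ∃ CF : ℝ, CF = (M : ℝ) + 1 := ⟨_, rfl⟩
  have hCF1 : 1 ≤ CF := by
    have : (0 : ℝ) ≤ M := Nat.cast_nonneg _
    linarith
  obtain ⟨M2, hM2⟩ : ∃ M2 : ℕ, M2 = M + d + 1 := ⟨_, rfl⟩
  obtain ⟨M1, hM1⟩ : ∃ M1 : ℕ, M1 = S0.card + 2 * M := ⟨_, rfl⟩
  -- the constants
  obtain ⟨KW, hKW, hW⟩ := cover1 hWU d hd (2 * d) M2 e1 he1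
  obtain ⟨KC, hKC, hC⟩ := cover hTU hF d (by omega) m (by omega) σ e1 hσ hσ1 he1
  obtain ⟨KF, hKF, hFc⟩ := full_count hF m σ (by omega) hσ
  obtain ⟨KS, hKS, hSc⟩ := hSU M1 e1 he1
  -- small B
  obtain ⟨B0, hB01, hB0⟩ : ∃ B0 : ℝ, 1 ≤ B0 ∧ ∀ B : ℝ, B0 < B → CF < B ^ (ε / 4) := by
    refine ⟨max 1 (CF ^ (4 / ε)), le_max_left _ _, fun B hBB => ?_⟩
    have h2 : CF ^ (4 / ε) < B := (le_max_right _ _).trans_lt hBB
    have h3 : CF = (CF ^ (4 / ε)) ^ (ε / 4) := by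
      rw [← Real.rpow_mul (by linarith)]
      rw [show 4 / ε * (ε / 4) = 1 by field_simp, Real.rpow_one]
    calc CF = (CF ^ (4 / ε)) ^ (ε / 4) := h3
      _ < B ^ (ε / 4) := Real.rpow_lt_rpow (by positivity) h2 (by positivity)
  obtain ⟨K1, hK1def⟩ : ∃ K1 : ℝ, K1 = KW * (2 * (KS * CF ^ e1 * KF)) := ⟨_, rfl⟩
  obtain ⟨K2, hK2def⟩ : ∃ K2 : ℝ, K2 = KC * 3 := ⟨_, rfl⟩
  obtain ⟨K3, hK3def⟩ : ∃ K3 : ℝ, K3 = KC * (KF + 1) := ⟨_, rfl⟩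
  have hK1 : 0 < K1 := by rw [hK1def]; positivity
  have hK2 : 0 < K2 := by rw [hK2def]; positivity
  have hK3 : 0 < K3 := by rw [hK3def]; positivity
  refine ⟨3 * B0 + K1 + K2 + K3, by positivity, ?_⟩
  intro c D0 B hB1 hD0 hD0M hgood hval E hE
  have hBpos : 0 < B := by linarith
  have hexp : B ^ (G + ε) ≤ B ^ (G + ε0) := Real.rpow_le_rpow_of_exponent_le hB1 (by linarith)
  have hBp : 1 ≤ B ^ (G + ε) := Real.one_le_rpow hB1 (by linarith)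
  have hB0p : 0 ≤ 3 * B0 := by positivity
  suffices hgoal : (E.card : ℝ) ≤ (3 * B0 + K1 + K2 + K3) * B ^ (G + ε) from
    hgoal.trans (mul_le_mul_of_nonneg_left hexp (by positivity))
  rcases le_or_gt B B0 with hsmall | hbig
  · -- small B
    have h1 : (E.card : ℝ) ≤ 3 * B := by
      have hsub : E ⊆ Icc (-(⌊B⌋₊ : ℤ)) ⌊B⌋₊ := by
        intro a ha
        have h1 : (a.natAbs : ℝ) ≤ B := by
          rw [Nat.cast_natAbs, Int.cast_abs]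
          exact (hE a ha).1
        have h2 := Nat.le_floor h1
        rw [mem_Icc]
        omega
      have h2 := card_le_card hsub
      rw [Int.card_Icc] at h2
      have h3 : E.card ≤ 2 * ⌊B⌋₊ + 1 := by omega
      have h4 : (E.card : ℝ) ≤ 2 * (⌊B⌋₊ : ℝ) + 1 := by exact_mod_cast h3
      have h5 := Nat.floor_le hBpos.le
      linarith
    calc (E.card : ℝ) ≤ 3 * B0 := by linarith
      _ ≤ (3 * B0 + K1 + K2 + K3) * 1 := by linarith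
      _ ≤ (3 * B0 + K1 + K2 + K3) * B ^ (G + ε) :=
          mul_le_mul_of_nonneg_left hBp (by positivity)
  have hBC := hB0 B hbig
  have hB1' : 1 < B := by linarith
  obtain ⟨S, hSdef⟩ : ∃ S : Finset ℕ, S = S0 ∪ D0.natAbs.primeFactors := ⟨_, rfl⟩
  have hS0S : S0 ⊆ S := by rw [hSdef]; exact subset_union_left
  have hSgood : ∀ p : ℕ, p.Prime → p ∉ S → Gd d c p := by
    intro p hp hpS
    refine hgood p hp fun hdvd => hpS ?_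
    rw [hSdef, mem_union]
    exact Or.inr (Nat.mem_primeFactors.2 ⟨hp, Int.natCast_dvd.1 hdvd, Int.natAbs_ne_zero.2 hD0⟩)
  obtain ⟨Y, hY⟩ : ∃ Y : ℝ, Y = B ^ ((1 : ℝ) / 2) := ⟨_, rfl⟩
  obtain ⟨Z, hZ⟩ : ∃ Z : ℝ, Z = B ^ θ := ⟨_, rfl⟩
  obtain ⟨X, hX⟩ : ∃ X : ℝ, X = CF * B ^ d := ⟨_, rfl⟩
  have hY1 : 1 ≤ Y := by rw [hY]; exact Real.one_le_rpow hB1 (by norm_num)
  have hZ1 : 1 < Z := by rw [hZ]; exact Real.one_lt_rpow hB1' hθ0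
  have hYR : Y * Y = B := by
    rw [hY, ← Real.rpow_add hBpos]
    norm_num
  have hBd : 1 ≤ B ^ d := one_le_pow₀ hB1
  have hX1 : 1 ≤ X := by
    rw [hX]
    exact one_le_mul_of_one_le_of_one_le hCF1 hBd
  have hBX : B ≤ X := by
    rw [hX]
    calc B = B ^ 1 := (pow_one B).symm
      _ ≤ B ^ d := pow_le_pow_right₀ hB1 (by omega)
      _ = 1 * B ^ d := (one_mul _).symm
      _ ≤ CF * B ^ d := mul_le_mul_of_nonneg_right hCF1 (by positivity)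
  -- large powers of Z
  have hZpow : ∀ k : ℕ, (d : ℝ) + ε / 4 ≤ θ * k → X < Z ^ k := by
    intro k hk
    have h1 : Z ^ k = B ^ (θ * k) := by
      rw [hZ, ← Real.rpow_natCast, ← Real.rpow_mul hBpos.le]
    have h2 : B ^ ((d : ℝ) + ε / 4) ≤ Z ^ k := by
      rw [h1]
      exact Real.rpow_le_rpow_of_exponent_le hB1 hk
    refine lt_of_lt_of_le ?_ h2
    rw [Real.rpow_add hBpos, Real.rpow_natCast, hX, mul_comm]
    exact mul_lt_mul_of_pos_left hBC (by positivity)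
  have hZ2m : X < Z ^ (2 * m + 1) := by
    apply hZpow
    push_cast
    exact g1
  have hZt : ∀ t : ℕ, Z ^ t ≤ X → t ≤ 2 * d := by
    intro t ht
    by_contra hcon
    push Not at hcon
    have h1 : 2 * (d : ℝ) + 1 ≤ t := by exact_mod_cast hcon
    have h2 : θ * (2 * (d : ℝ) + 1) ≤ θ * t := mul_le_mul_of_nonneg_left h1 hθ0.le
    have := hZpow t (g2.trans h2)
    linarith
  -- the finite sets
  obtain ⟨Ss, hSs⟩ : ∃ Ss : Finset ℕ, ∀ n, n ∈ Ss ↔ (0 < n ∧ (n : ℝ) ≤ X ∧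
      ∀ p : ℕ, p.Prime → p ∣ n → p ∈ S) := by
    refine ⟨(range (⌊X⌋₊ + 1)).filter fun n => 0 < n ∧ (n : ℝ) ≤ X ∧
      ∀ p : ℕ, p.Prime → p ∣ n → p ∈ S, fun n => ?_⟩
    rw [mem_filter, mem_range, and_iff_right_iff_imp]
    intro h
    have := Nat.le_floor h.2.1
    omega
  obtain ⟨As, hAs⟩ : ∃ As : Finset ℕ, ∀ n, n ∈ As ↔ (MF m n ∧ (n : ℝ) ≤ Y) := by
    refine ⟨(range (⌊Y⌋₊ + 1)).filter fun n => MF m n ∧ (n : ℝ) ≤ Y, fun n => ?_⟩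
    rw [mem_filter, mem_range, and_iff_right_iff_imp]
    intro h
    have := Nat.le_floor h.2
    omega
  have hScard : (S.card : ℝ) ≤ M1 * (1 + Real.log X) := by
    have h1 : S.card ≤ S0.card + D0.natAbs.primeFactors.card := by
      rw [hSdef]
      exact card_union_le _ _
    have h2 : (S.card : ℝ) ≤ S0.card + (D0.natAbs.primeFactors.card : ℝ) := by exact_mod_cast h1
    have h3 := primes_card D0 hD0 M B hB1 hD0M
    have h4 : Real.log B ≤ Real.log X := Real.log_le_log hBpos hBX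
    have h5 : 0 ≤ Real.log B := Real.log_nonneg hB1
    have h6 : (0 : ℝ) ≤ M := Nat.cast_nonneg _
    have h7 : (0 : ℝ) ≤ S0.card := Nat.cast_nonneg _
    have h8 : (M : ℝ) * Real.log B ≤ M * Real.log X := mul_le_mul_of_nonneg_left h4 h6
    have h9 : 0 ≤ (S0.card : ℝ) * Real.log X := mul_nonneg h7 (h5.trans h4)
    rw [hM1]
    push_cast
    nlinarith
  have hSscard : (Ss.card : ℝ) ≤ KS * X ^ e1 := hSc X S hX1 hScard Ss fun n hn => (hSs n).1 hn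
  have hAscard : (As.card : ℝ) ≤ KF * Y ^ σ :=
    (hFc As fun n hn => ((hAs n).1 hn).1).1 Y (by linarith) fun n hn => ((hAs n).1 hn).2
  obtain ⟨Ks, hKs⟩ : ∃ Ks : Finset ℤ, Ks = ((Ss ×ˢ As).image fun q => ((q.1 * q.2 : ℕ) : ℤ)) ∪
    ((Ss ×ˢ As).image fun q => -((q.1 * q.2 : ℕ) : ℤ)) := ⟨_, rfl⟩
  have hKscard : (Ks.card : ℝ) ≤ 2 * ((Ss.card : ℝ) * As.card) := by
    have h1 : Ks.card ≤ (Ss ×ˢ As).card + (Ss ×ˢ As).card := by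
      rw [hKs]
      exact (card_union_le _ _).trans (add_le_add card_image_le card_image_le)
    rw [card_product] at h1
    have h2 : (Ks.card : ℝ) ≤ (Ss.card : ℝ) * As.card + (Ss.card : ℝ) * As.card := by
      exact_mod_cast h1
    linarith
  have hMM2 : (M : ℝ) * B ^ M ≤ M2 * B ^ M2 := by
    have h1 : (M : ℝ) ≤ M2 := by rw [hM2]; push_cast; linarith [(Nat.cast_nonneg d : (0 : ℝ) ≤ d)]
    have h2 : B ^ M ≤ B ^ M2 := pow_le_pow_right₀ hB1 (by omega)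
    gcongr
  have hXY : X * Y ≤ M2 * B ^ M2 := by
    have h1 : Y ≤ B := by
      rw [hY]
      calc B ^ ((1 : ℝ) / 2) ≤ B ^ (1 : ℝ) := Real.rpow_le_rpow_of_exponent_le hB1 (by norm_num)
        _ = B := Real.rpow_one B
    calc X * Y ≤ X * B := mul_le_mul_of_nonneg_left h1 (by linarith)
      _ = CF * B ^ (d + 1) := by rw [hX]; ring
      _ ≤ M2 * B ^ M2 := by
          have h2 : B ^ (d + 1) ≤ B ^ M2 := pow_le_pow_right₀ hB1 (by omega)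
          have h3 : CF ≤ M2 := by
            rw [hCFdef, hM2]
            push_cast
            linarith [(Nat.cast_nonneg d : (0 : ℝ) ≤ d)]
          gcongr
  have hKsprop : ∀ k ∈ Ks, k ≠ 0 ∧ |(k : ℝ)| ≤ M2 * B ^ M2 := by
    intro k hk
    have hq : ∀ s A : ℕ, s ∈ Ss → A ∈ As → 0 < s * A ∧ ((s * A : ℕ) : ℝ) ≤ M2 * B ^ M2 := by
      intro s A hs hA
      have h1 := (hSs s).1 hs
      have h2 := (hAs A).1 hA
      refine ⟨Nat.mul_pos h1.1 h2.1.1, ?_⟩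
      push_cast
      exact (mul_le_mul h1.2.1 h2.2 (Nat.cast_nonneg _) (by linarith)).trans hXY
    rw [hKs, mem_union, mem_image, mem_image] at hk
    rcases hk with ⟨q, hq1, rfl⟩ | ⟨q, hq1, rfl⟩
    · rw [mem_product] at hq1
      obtain ⟨h1, h2⟩ := hq q.1 q.2 hq1.1 hq1.2
      refine ⟨by exact_mod_cast h1.ne', ?_⟩
      rw [Int.cast_natCast, abs_of_nonneg (Nat.cast_nonneg _)]
      exact h2
    · rw [mem_product] at hq1
      obtain ⟨h1, h2⟩ := hq q.1 q.2 hq1.1 hq1.2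
      refine ⟨by rw [neg_ne_zero]; exact_mod_cast h1.ne', ?_⟩
      rw [Int.cast_neg, abs_neg, Int.cast_natCast, abs_of_nonneg (Nat.cast_nonneg _)]
      exact h2
  obtain ⟨D2, hD2⟩ : ∃ D2 : Finset ℕ, D2 = ((range (⌊Z⌋₊ + 1)).filter fun p => p.Prime ∧ p ∉ S ∧
    Y < ((p ^ m : ℕ) : ℝ)).image fun p => p ^ m := ⟨_, rfl⟩
  have hD2p : ∀ D ∈ D2, MF m D ∧ (∀ p : ℕ, p.Prime → p ∣ D → Gd d c p) ∧ Y ≤ (D : ℝ) ∧
      (D : ℝ) ≤ Z ^ m := by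
    intro D hDm
    rw [hD2, mem_image] at hDm
    obtain ⟨p, hp, rfl⟩ := hDm
    rw [mem_filter, mem_range] at hp
    obtain ⟨hpZ, hpp, hpS, hpR⟩ := hp
    have h2 : ∀ p' : ℕ, p'.Prime → p' ∣ p ^ m → p' = p := fun p' h3 h4 =>
      (Nat.prime_dvd_prime_iff_eq h3 hpp).1 (h3.dvd_of_dvd_pow h4)
    refine ⟨⟨pow_pos hpp.pos m, fun p' h3 h4 => by rw [h2 p' h3 h4]⟩, fun p' h3 h4 => ?_, hpR.le, ?_⟩
    · rw [h2 p' h3 h4]
      exact hSgood p hpp hpS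
    · push_cast
      have h5 : p ≤ ⌊Z⌋₊ := by omega
      have h6 : (p : ℝ) ≤ Z := (Nat.cast_le.2 h5).trans (Nat.floor_le (by linarith))
      exact pow_le_pow_left₀ (Nat.cast_nonneg _) h6 m
  have hD2card : (D2.card : ℝ) ≤ 2 * Z := by
    have h1 : D2.card ≤ ⌊Z⌋₊ + 1 := by
      rw [hD2]
      refine card_image_le.trans ((card_filter_le _ _).trans ?_)
      rw [card_range]
    have h2 : (D2.card : ℝ) ≤ (⌊Z⌋₊ : ℝ) + 1 := by exact_mod_cast h1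
    have h3 := Nat.floor_le (by linarith : 0 ≤ Z)
    linarith
  obtain ⟨D3, hD3⟩ : ∃ D3 : Finset ℕ, ∀ D, D ∈ D3 ↔ (MF m D ∧
    (∀ p : ℕ, p.Prime → p ∣ D → Gd d c p) ∧ Y < (D : ℝ) ∧ (D : ℝ) ≤ Y * Y) := by
    refine ⟨(range (⌊Y * Y⌋₊ + 1)).filter fun D => MF m D ∧
      (∀ p : ℕ, p.Prime → p ∣ D → Gd d c p) ∧ Y < (D : ℝ) ∧ (D : ℝ) ≤ Y * Y, fun D => ?_⟩
    rw [mem_filter, mem_range, and_iff_right_iff_imp]
    intro h
    have := Nat.le_floor h.2.2.2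
    omega
  have hD3p : ∀ D ∈ D3, MF m D ∧ (∀ p : ℕ, p.Prime → p ∣ D → Gd d c p) ∧ Y ≤ (D : ℝ) ∧
      (D : ℝ) ≤ B := by
    intro D hDm
    have h := (hD3 D).1 hDm
    exact ⟨h.1, h.2.1, h.2.2.1.le, by rw [← hYR]; exact h.2.2.2⟩
  have hD3card : (D3.card : ℝ) ≤ KF * B ^ σ :=
    (hFc D3 fun n hn => (hD3p n hn).1).1 B hBpos fun n hn => (hD3p n hn).2.2.2
  -- the three parts
  obtain ⟨E1, hE1⟩ : ∃ E1 : Finset ℤ, E1 = E.filter fun a => ∃ k ∈ Ks, ∃ t : ℕ, t.Prime ∧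
    t ≤ 2 * d ∧ ∃ y : ℤ, fm d c (a, 1) = k * y ^ t := ⟨_, rfl⟩
  obtain ⟨E2, hE2⟩ : ∃ E2 : Finset ℤ, E2 = E.filter fun a => ∃ D ∈ D2, (D : ℤ) ∣ fm d c (a, 1) :=
    ⟨_, rfl⟩
  obtain ⟨E3, hE3⟩ : ∃ E3 : Finset ℤ, E3 = E.filter fun a => ∃ D ∈ D3, (D : ℤ) ∣ fm d c (a, 1) :=
    ⟨_, rfl⟩
  have hcov : E ⊆ (E1 ∪ E2) ∪ E3 := by
    intro a ha
    obtain ⟨haB, ha0, haf⟩ := hE a ha
    have hxX : |(fm d c (a, 1) : ℝ)| ≤ X := by
      refine (hval a haB).trans ?_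
      rw [hX, hCFdef]
      have : (M : ℝ) ≤ M + 1 := by linarith
      gcongr
    have hpts : (a, (1 : ℤ)) ∈ Pts d c m S0 B := by
      refine ⟨isCoprime_one_right, ?_, ha0, haf⟩
      unfold ht
      rw [Nat.cast_max, max_le_iff]
      constructor
      · rw [Nat.cast_natAbs, Int.cast_abs]
        exact haB
      · simpa using hB1
    rw [mem_union, mem_union]
    rcases kinds hD hP d c m hm S0 S hS0S hSgood (2 * d) (by omega) X Y Y Z hY1 hY1 hZ1 hZ2m hZt B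
      (a, 1) hpts hxX
      with ⟨s, A, hs, hA, k, hk, t, ht, htd, y, hy⟩ | ⟨p, hp, hpS, hpZ, hpR, hdvd⟩ |
        ⟨D, h1, h2, h3, h4, h5⟩
    · left; left
      rw [hE1, mem_filter]
      refine ⟨ha, k, ?_, t, ht, htd, y, hy⟩
      have hmem : (s, A) ∈ Ss ×ˢ As := mem_product.2 ⟨(hSs s).2 hs, (hAs A).2 hA⟩
      rw [hKs, mem_union, mem_image, mem_image]
      rcases hk with rfl | rfl
      · exact Or.inl ⟨(s, A), hmem, rfl⟩
      · exact Or.inr ⟨(s, A), hmem, rfl⟩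
    · left; right
      rw [hE2, mem_filter]
      refine ⟨ha, p ^ m, ?_, hdvd⟩
      rw [hD2, mem_image]
      refine ⟨p, ?_, rfl⟩
      rw [mem_filter, mem_range]
      have h3 := Nat.le_floor hpZ
      exact ⟨by omega, hp, hpS, hpR⟩
    · right
      rw [hE3, mem_filter]
      exact ⟨ha, D, (hD3 D).2 ⟨h1, h2, h3, h4⟩, h5⟩
  have hcard : (E.card : ℝ) ≤ E1.card + E2.card + E3.card := by
    have h1 : E.card ≤ (E1.card + E2.card) + E3.card :=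
      (card_le_card hcov).trans ((card_union_le _ _).trans
        (add_le_add (card_union_le _ _) le_rfl))
    exact_mod_cast h1
  have hb1 : (E1.card : ℝ) ≤ K1 * B ^ (G + ε) := by
    have h1 := hW c D0 B hB1 hD0 (hD0M.trans hMM2) hgood Ks hKsprop E1 fun a ha => by
      rw [hE1, mem_filter] at ha
      exact ⟨(hE a ha.1).1, ha.2⟩
    rw [hK1def]
    exact part1 B KW KS KF CF e1 σ G ε hB1 hKW hKS hKF hCF1 d X Y hX hY _ _ _ _ hKscard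
      hSscard (Nat.cast_nonneg _) hAscard h1 g3
  have hb2 : (E2.card : ℝ) ≤ K2 * B ^ (G + ε) := by
    have h1 := hC c B Y (Z ^ m) hB1 (by linarith) (one_le_pow₀ hZ1.le) D2 hD2p E2 fun a ha => by
      rw [hE2, mem_filter] at ha
      exact ⟨(hE a ha.1).1, ha.2⟩
    rw [hK2def]
    exact part2 B KC e1 σ θ G ε hB1 hKC m Z Y hZ hY _ _ hD2card h1 g4 g5 g6
  have hb3 : (E3.card : ℝ) ≤ K3 * B ^ (G + ε) := by
    have h1 := hC c B Y B hB1 (by linarith) hB1 D3 hD3p E3 fun a ha => by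
      rw [hE3, mem_filter] at ha
      exact ⟨(hE a ha.1).1, ha.2⟩
    rw [hK3def]
    exact part3 B KC KF e1 σ G ε hB1 hKC hKF Y hY _ _ hD3card h1 g7 g6 g8
  have h9 : 0 ≤ 3 * B0 * B ^ (G + ε) := by positivity
  calc (E.card : ℝ) ≤ E1.card + E2.card + E3.card := hcard
    _ ≤ K1 * B ^ (G + ε) + K2 * B ^ (G + ε) + K3 * B ^ (G + ε) := by linarith
    _ ≤ 3 * B0 * B ^ (G + ε) + (K1 * B ^ (G + ε) + K2 * B ^ (G + ε) + K3 * B ^ (G + ε)) := by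
        linarith
    _ = (3 * B0 + K1 + K2 + K3) * B ^ (G + ε) := by ring

end Pool.Agent.L0h46.CY
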