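import Pool.Agent.L0h46.CV.Stm

/-!
Project CY (helper46), MP_464c42_nt: `m`-full values of polynomials in several variables.
Statements of the modules.
-/

set_option autoImplicit false

namespace Pool.Agent.L0h46.CY

open Finset
open Pool.Agent.L0h46.CV (fm MF Gd)

/-- WU: values `k y ^ t`, uniformly in the polynomial. -/
def S_WU : Prop := ∀ t d : ℕ, t.Prime → 3 ≤ d → ∀ (M : ℕ) (ε : ℝ), 0 < ε → ∃ K : ℝ, 0 < K ∧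
  ∀ (c : ℕ → ℤ) (D0 : ℤ) (B : ℝ), 1 ≤ B → D0 ≠ 0 → |(D0 : ℝ)| ≤ M * B ^ M →
  (∀ p : ℕ, p.Prime → ¬ (p : ℤ) ∣ D0 → Gd d c p) → ∀ k : ℤ, k ≠ 0 → |(k : ℝ)| ≤ M * B ^ M →
  ∀ E : Finset ℤ, (∀ a ∈ E, |(a : ℝ)| ≤ B ∧ ∃ y : ℤ, fm d c (a, 1) = k * y ^ t) →
    (E.card : ℝ) ≤ K * B ^ ((1 : ℝ) / 2 + ε)

/-- TU: the number of `a` at which `q` divides the polynomial. -/
def S_TU : Prop := ∀ d : ℕ, 1 ≤ d → ∀ ε : ℝ, 0 < ε → ∃ K : ℝ, 0 < K ∧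
  ∀ (c : ℕ → ℤ) (B : ℝ), 1 ≤ B → ∀ q : ℕ, 0 < q → (∀ p : ℕ, p.Prime → p ∣ q → Gd d c p) →
  ∀ E : Finset ℤ, (∀ a ∈ E, |(a : ℝ)| ≤ B ∧ (q : ℤ) ∣ fm d c (a, 1)) →
    (E.card : ℝ) ≤ K * (q : ℝ) ^ ε * (1 + B / q)

/-- SU: the number of integers composed of few primes. -/
def S_SU : Prop := ∀ (M : ℕ) (ε : ℝ), 0 < ε → ∃ K : ℝ, 0 < K ∧ ∀ (X : ℝ) (S : Finset ℕ), 1 ≤ X →
  (S.card : ℝ) ≤ M * (1 + Real.log X) →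
  ∀ E : Finset ℕ, (∀ n ∈ E, 0 < n ∧ (n : ℝ) ≤ X ∧ ∀ p : ℕ, p.Prime → p ∣ n → p ∈ S) →
    (E.card : ℝ) ≤ K * X ^ ε

/-- ONE: one variable, uniformly in the polynomial. -/
def S_ONE : Prop := ∀ d m : ℕ, 3 ≤ d → 2 ≤ m → d ≤ 2 * m → ∀ (S : Finset ℕ) (M : ℕ) (ε : ℝ),
  0 < ε → ∃ K : ℝ, 0 < K ∧ ∀ (c : ℕ → ℤ) (D0 : ℤ) (B : ℝ), 1 ≤ B → D0 ≠ 0 →
  |(D0 : ℝ)| ≤ M * B ^ M → (∀ p : ℕ, p.Prime → ¬ (p : ℤ) ∣ D0 → Gd d c p) →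
  (∀ a : ℤ, |(a : ℝ)| ≤ B → |(fm d c (a, 1) : ℝ)| ≤ M * B ^ d) →
  ∀ E : Finset ℤ, (∀ a ∈ E, |(a : ℝ)| ≤ B ∧ fm d c (a, 1) ≠ 0 ∧ ∀ p : ℕ, p.Prime → p ∉ S →
    (p : ℤ) ∣ fm d c (a, 1) → (p : ℤ) ^ m ∣ fm d c (a, 1)) →
    (E.card : ℝ) ≤ K * B ^ (max (1 / 2 + 1 / (2 * (m : ℝ))) (d / (2 * (m : ℝ) + 1)) + ε)

/-- BEZ: a discriminant. -/
def S_BEZ : Prop := ∀ (n d : ℕ) (G : Polynomial (MvPolynomial (Fin n) ℤ)) (a : ℤ), 1 ≤ d →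
  G.natDegree = d → a ≠ 0 → G.leadingCoeff = MvPolynomial.C a →
  Squarefree (G.map (MvPolynomial.map (Int.castRingHom ℚ) : MvPolynomial (Fin n) ℤ →+* _)) →
  ∃ Φ : MvPolynomial (Fin n) ℤ, Φ ≠ 0 ∧ ∀ (z : Fin n → ℤ) (p : ℕ), p.Prime →
    ¬ (p : ℤ) ∣ MvPolynomial.eval z Φ → Gd d (fun i => MvPolynomial.eval z (G.coeff i)) p

/-- SHR: after a shear the polynomial is monic up to a constant in the first variable. -/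
def S_SHR : Prop := ∀ (n d : ℕ) (F : MvPolynomial (Fin (n + 1)) ℤ), 1 ≤ d → F.totalDegree = d →
  Squarefree (MvPolynomial.map (Int.castRingHom ℚ) F) →
  ∃ (v : Fin n → ℤ) (G : Polynomial (MvPolynomial (Fin n) ℤ)) (a : ℤ), a ≠ 0 ∧
    G.natDegree = d ∧ G.leadingCoeff = MvPolynomial.C a ∧
    Squarefree (G.map (MvPolynomial.map (Int.castRingHom ℚ) : MvPolynomial (Fin n) ℤ →+* _)) ∧
    ∀ (z : Fin n → ℤ) (t : ℤ), MvPolynomial.eval (Fin.cons t fun i => z i + t * v i) F =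
      fm d (fun i => MvPolynomial.eval z (G.coeff i)) (t, 1)

/-- GRW: growth of polynomials. -/
def S_GRW : Prop := ∀ (n : ℕ) (Φ : MvPolynomial (Fin n) ℤ), ∃ M : ℕ, ∀ (B : ℝ) (z : Fin n → ℤ),
  1 ≤ B → (∀ i, |(z i : ℝ)| ≤ B) →
    |((MvPolynomial.eval z Φ : ℤ) : ℝ)| ≤ M * B ^ Φ.totalDegree

/-- SZ: zeros of polynomials. -/
def S_SZ : Prop := ∀ (n : ℕ) (Φ : MvPolynomial (Fin n) ℤ), Φ ≠ 0 → ∃ K : ℝ, 0 < K ∧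
  ∀ B : ℝ, 1 ≤ B → ∀ E : Finset (Fin n → ℤ),
    (∀ z ∈ E, (∀ i, |(z i : ℝ)| ≤ B) ∧ MvPolynomial.eval z Φ = 0) → (E.card : ℝ) ≤ K * B ^ n / B

/-- the integral points with an `m`-full value -/
def Pn (n : ℕ) (F : MvPolynomial (Fin (n + 1)) ℤ) (m : ℕ) (S : Finset ℕ) (B : ℝ) :
    Set (Fin (n + 1) → ℤ) :=
  {x | (∀ i, |(x i : ℝ)| ≤ B) ∧ MvPolynomial.eval x F ≠ 0 ∧ ∀ p : ℕ, p.Prime → p ∉ S →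
    (p : ℤ) ∣ MvPolynomial.eval x F → (p : ℤ) ^ m ∣ MvPolynomial.eval x F}

/-- the theorem -/
def S_FIN : Prop := ∀ (n d m : ℕ) (F : MvPolynomial (Fin (n + 1)) ℤ), 3 ≤ d → F.totalDegree = d →
  Squarefree (MvPolynomial.map (Int.castRingHom ℚ) F) → 2 ≤ m → d ≤ 2 * m →
  ∀ (S : Finset ℕ) (ε : ℝ), 0 < ε → ∃ K : ℝ, 0 < K ∧ ∀ B : ℝ, 1 ≤ B →
    (Pn n F m S B).Finite ∧ ((Pn n F m S B).ncard : ℝ) ≤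
      K * B ^ (n + max (1 / 2 + 1 / (2 * (m : ℝ))) (d / (2 * (m : ℝ) + 1)) + ε)

end Pool.Agent.L0h46.CY
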