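import Mathlib
import Pool.Agent.L0h46.CY.Stm

/-!
CY/SHR (helper33): after a shear the polynomial is monic up to a constant in the first variable.
-/

set_option autoImplicit false

namespace Pool.Agent.L0h46.CY

open Finset
open Pool.Agent.L0h46.CV (fm MF Gd)

namespace SHR

open MvPolynomial

section

variable {R : Type} [CommRing R] {n : ℕ}

/-- the shear -/
noncomputable def sh (v : Fin n → R) :
    MvPolynomial (Fin (n + 1)) R →ₐ[R] MvPolynomial (Fin (n + 1)) R :=
  aeval (Fin.cons (X 0) (fun i => X i.succ + C (v i) * X 0))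

theorem sh_X0 (v : Fin n → R) : sh v (X 0) = X 0 := by simp [sh]

theorem sh_Xs (v : Fin n → R) (i : Fin n) : sh v (X i.succ) = X i.succ + C (v i) * X 0 := by
  simp [sh]

theorem sh_C (v : Fin n → R) (a : R) : sh v (C a) = C a := by
  simp [sh]

theorem sh_sh (v w : Fin n → R) (hw : ∀ i, w i = - v i) (F : MvPolynomial (Fin (n + 1)) R) :
    sh w (sh v F) = F := by
  have h : (sh w).comp (sh v) = AlgHom.id R _ := by
    apply MvPolynomial.algHom_ext
    intro i
    refine Fin.cases ?_ (fun j => ?_) i
    · simp [sh_X0]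
    · rw [AlgHom.comp_apply, sh_Xs, map_add, map_mul, sh_Xs, sh_X0, sh_C, hw, C_neg,
        AlgHom.id_apply]
      ring
  exact DFunLike.congr_fun h F

theorem sq_of_inv {M N : Type} [CommRing M] [CommRing N] (f : M →+* N) (g : N →+* M)
    (hfg : ∀ y, f (g y) = y) (hgf : ∀ x, g (f x) = x) {x : M} (hx : Squarefree x) :
    Squarefree (f x) := by
  rintro y ⟨z, hz⟩
  have h1 : g y * g y ∣ x := ⟨g z, by rw [← hgf x, hz]; simp⟩
  have h2 := (hx _ h1).map f
  rwa [hfg] at h2

theorem eval_sh (v : Fin n → R) (F : MvPolynomial (Fin (n + 1)) R) (z : Fin n → R) (t : R) :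
    eval (Fin.cons t z : Fin (n + 1) → R) (sh v F) =
      eval (Fin.cons t fun i => z i + t * v i : Fin (n + 1) → R) F := by
  have h : (aeval (Fin.cons t z : Fin (n + 1) → R)).comp (sh v) =
      (aeval (Fin.cons t fun i => z i + t * v i : Fin (n + 1) → R) :
        MvPolynomial (Fin (n + 1)) R →ₐ[R] R) := by
    apply MvPolynomial.algHom_ext
    intro i
    refine Fin.cases ?_ (fun j => ?_) i
    · simp [sh_X0]
    · rw [AlgHom.comp_apply, sh_Xs]
      simp [mul_comm]
  have h2 := DFunLike.congr_fun h F
  simpa [aeval_eq_eval] using h2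

theorem td_sh [Nontrivial R] (v : Fin n → R) (F : MvPolynomial (Fin (n + 1)) R) :
    (sh v F).totalDegree ≤ F.totalDegree := by
  rw [sh, aeval_def, eval₂_eq]
  refine totalDegree_finsetSum_le fun m hm => ?_
  refine (totalDegree_mul _ _).trans ?_
  rw [algebraMap_eq, totalDegree_C, zero_add]
  refine (totalDegree_finsetProd _ _).trans ?_
  refine le_trans (Finset.sum_le_sum (g := fun i => m i) fun i _ => ?_) (le_totalDegree hm)
  refine (totalDegree_pow _ _).trans ?_
  refine (Nat.mul_le_mul_left _ (?_ : _ ≤ 1)).trans (mul_one _).le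
  refine Fin.cases ?_ (fun j => ?_) i
  · simp
  · rw [Fin.cons_succ]
    refine (totalDegree_add _ _).trans (max_le (by simp) ?_)
    refine (totalDegree_mul _ _).trans ?_
    simp

end

theorem fse_C {R : Type} [CommRing R] {n : ℕ} (r : R) :
    MvPolynomial.finSuccEquiv R n (MvPolynomial.C r) = Polynomial.C (MvPolynomial.C r) := by
  rw [finSuccEquiv_apply, eval₂Hom_C]
  rfl

theorem hom_eval {σ R S : Type} [CommRing R] [CommRing S] [Algebra R S] {P : MvPolynomial σ R}
    {k : ℕ} (h : P.IsHomogeneous k) (t : S) (x : σ → S) :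
    aeval (fun i => t * x i) P = t ^ k * aeval x P := by
  rw [aeval_def, aeval_def, eval₂_eq, eval₂_eq, Finset.mul_sum]
  refine Finset.sum_congr rfl fun m hm => ?_
  have h1 := h (mem_support_iff.1 hm)
  rw [Finsupp.weight_apply] at h1
  simp only [Pi.one_apply, smul_eq_mul, mul_one] at h1
  rw [Finset.prod_congr rfl (fun i _ => mul_pow t (x i) (m i)), Finset.prod_mul_distrib,
    Finset.prod_pow_eq_pow_sum, ← h1, Finsupp.sum]
  ring

/-- a nonzero form does not vanish at all integral points with first coordinate one -/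
theorem exists_v {n k : ℕ} {P : MvPolynomial (Fin (n + 1)) ℤ} (h : P.IsHomogeneous k)
    (hP : P ≠ 0) : ∃ v : Fin n → ℤ, eval (Fin.cons 1 v : Fin (n + 1) → ℤ) P ≠ 0 := by
  by_contra hc
  push Not at hc
  let φ : MvPolynomial (Fin (n + 1)) ℤ →ₐ[ℤ] MvPolynomial (Fin n) ℤ :=
    aeval (Fin.cons 1 X)
  have hφ : φ P = 0 := by
    apply MvPolynomial.funext
    intro v
    rw [map_zero, ← hc v]
    have h1 : (aeval v : MvPolynomial (Fin n) ℤ →ₐ[ℤ] ℤ).comp φ =
        aeval (Fin.cons 1 v : Fin (n + 1) → ℤ) := by
      apply MvPolynomial.algHom_ext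
      intro i
      refine Fin.cases ?_ (fun j => ?_) i
      · simp [φ]
      · simp [φ]
    have h2 := DFunLike.congr_fun h1 P
    simpa [aeval_eq_eval] using h2
  have hQ : ∀ x : Fin (n + 1) → ℚ, x 0 ≠ 0 → aeval x P = 0 := by
    intro x hx
    have h1 : (aeval (fun i => x i.succ / x 0) : MvPolynomial (Fin n) ℤ →ₐ[ℤ] ℚ).comp φ =
        aeval (fun i => x i / x 0) := by
      apply MvPolynomial.algHom_ext
      intro i
      refine Fin.cases ?_ (fun j => ?_) i
      · simp [φ, hx]
      · simp [φ]
    have h2 := DFunLike.congr_fun h1 P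
    rw [AlgHom.comp_apply, hφ, map_zero] at h2
    have h3 := hom_eval h (x 0) (fun i => x i / x 0)
    rw [← h2, mul_zero] at h3
    rw [← h3]
    congr 2
    funext i
    field_simp
  have hZ : P * X 0 = 0 := by
    apply MvPolynomial.funext
    intro x
    rw [map_zero, map_mul, eval_X]
    by_cases hx : x 0 = 0
    · rw [hx, mul_zero]
    have h1 := hQ (fun i => (x i : ℚ)) (by exact_mod_cast hx)
    have h2 : aeval (fun i => (x i : ℚ)) P = ((eval x P : ℤ) : ℚ) := by
      rw [← aeval_eq_eval]
      have := aeval_algebraMap_apply ℚ x P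
      simpa [Function.comp_def] using this
    rw [h2] at h1
    have h3 : eval x P = 0 := by exact_mod_cast h1
    rw [h3, zero_mul]
  exact (mul_eq_zero.1 hZ).elim hP (X_ne_zero _)

end SHR

open SHR in
theorem shr : S_SHR := by
  intro n d F hd hF hsq
  have hF0 : F ≠ 0 := by
    rintro rfl
    simp at hF
    omega
  let Fd := MvPolynomial.homogeneousComponent d F
  have hFd : Fd ≠ 0 := by
    intro h
    obtain ⟨m, hm1, hm2⟩ := Finset.exists_mem_eq_sup F.support
      (MvPolynomial.support_nonempty.2 hF0) (fun s => s.sum fun _ e => e)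
    have h1 : MvPolynomial.coeff m Fd = 0 := by rw [h, MvPolynomial.coeff_zero]
    rw [MvPolynomial.coeff_homogeneousComponent, if_pos] at h1
    · exact (MvPolynomial.mem_support_iff.1 hm1) h1
    · rw [Finsupp.degree_apply, ← hF, MvPolynomial.totalDegree, hm2]
      rfl
  obtain ⟨v, hv⟩ := exists_v (MvPolynomial.homogeneousComponent_isHomogeneous d F) hFd
  set G : Polynomial (MvPolynomial (Fin n) ℤ) := MvPolynomial.finSuccEquiv ℤ n (sh v F) with hG
  have htd : (sh v F).totalDegree ≤ d := (td_sh v F).trans hF.le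
  have hcd : ∀ i, G.coeff i ≠ 0 → (G.coeff i).totalDegree + i ≤ d := fun i hi =>
    (MvPolynomial.totalDegree_coeff_finSuccEquiv_add_le _ i hi).trans htd
  have hev : ∀ (z : Fin n → ℤ) (t : ℤ),
      MvPolynomial.eval (Fin.cons t fun i => z i + t * v i) F =
        (G.map (MvPolynomial.eval z)).eval t := by
    intro z t
    rw [← eval_sh, MvPolynomial.eval_eq_eval_mv_eval']
  -- the leading coefficient
  have hQ : G.map (MvPolynomial.eval (0 : Fin n → ℤ)) = ∑ k ∈ range (d + 1), Polynomial.C
      (MvPolynomial.eval (Fin.cons 1 v : Fin (n + 1) → ℤ) (MvPolynomial.homogeneousComponent k F)) *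
        Polynomial.X ^ k := by
    apply Polynomial.funext
    intro t
    rw [← hev]
    have h1 : (Fin.cons t fun i => (0 : Fin n → ℤ) i + t * v i : Fin (n + 1) → ℤ) =
        fun i => t * (Fin.cons 1 v : Fin (n + 1) → ℤ) i := by
      funext i
      refine Fin.cases ?_ (fun j => ?_) i <;> simp
    rw [h1, Polynomial.eval_finsetSum]
    conv_lhs => rw [← MvPolynomial.sum_homogeneousComponent F, hF]
    rw [map_sum]
    refine Finset.sum_congr rfl fun k _ => ?_
    have h2 := hom_eval (MvPolynomial.homogeneousComponent_isHomogeneous k F) t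
      (Fin.cons 1 v : Fin (n + 1) → ℤ)
    rw [MvPolynomial.aeval_eq_eval, MvPolynomial.aeval_eq_eval] at h2
    rw [h2]
    simp [mul_comm]
  have ha : MvPolynomial.eval (0 : Fin n → ℤ) (G.coeff d) ≠ 0 := by
    have h1 := congrArg (fun P => Polynomial.coeff P d) hQ
    simp only [Polynomial.coeff_map, Polynomial.finsetSum_coeff, Polynomial.coeff_C_mul,
      Polynomial.coeff_X_pow] at h1
    rw [h1]
    simpa using hv
  have hcd0 : G.coeff d ≠ 0 := by
    intro h
    rw [h, map_zero] at ha
    exact ha rfl
  have hC : G.coeff d = MvPolynomial.C (MvPolynomial.coeff 0 (G.coeff d)) := by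
    apply MvPolynomial.totalDegree_eq_zero_iff_eq_C.1
    have := hcd d hcd0
    omega
  have hnd : G.natDegree = d := by
    apply le_antisymm
    · rw [Polynomial.natDegree_le_iff_coeff_eq_zero]
      intro N hN
      by_contra h
      have := hcd N h
      omega
    · exact Polynomial.le_natDegree_of_ne_zero hcd0
  refine ⟨v, G, MvPolynomial.coeff 0 (G.coeff d), ?_, hnd, ?_, ?_, ?_⟩
  · intro h
    rw [h, map_zero] at hC
    exact hcd0 hC
  · rw [Polynomial.leadingCoeff, hnd]
    exact hC
  · let w : Fin n → ℚ := fun i => (v i : ℚ)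
    have h1 : G.map (MvPolynomial.map (Int.castRingHom ℚ) : MvPolynomial (Fin n) ℤ →+* _) =
        MvPolynomial.finSuccEquiv ℚ n (sh w (MvPolynomial.map (Int.castRingHom ℚ) F)) := by
      have h2 : (Polynomial.mapRingHom (MvPolynomial.map (Int.castRingHom ℚ) :
            MvPolynomial (Fin n) ℤ →+* _)).comp
          ((MvPolynomial.finSuccEquiv ℤ n).toRingEquiv.toRingHom.comp (sh v).toRingHom) =
          (MvPolynomial.finSuccEquiv ℚ n).toRingEquiv.toRingHom.comp ((sh w).toRingHom.comp
            (MvPolynomial.map (Int.castRingHom ℚ))) := by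
        apply MvPolynomial.ringHom_ext
        · intro r
          simp
        · intro i
          refine Fin.cases ?_ (fun j => ?_) i
          · simp [sh_X0, MvPolynomial.finSuccEquiv_X_zero]
          · change Polynomial.map _ (MvPolynomial.finSuccEquiv ℤ n (sh v (MvPolynomial.X j.succ))) =
              MvPolynomial.finSuccEquiv ℚ n (sh w (MvPolynomial.map _ (MvPolynomial.X j.succ)))
            rw [MvPolynomial.map_X, sh_Xs, sh_Xs, map_add, map_mul, map_add, map_mul, fse_C, fse_C,
              MvPolynomial.finSuccEquiv_X_succ, MvPolynomial.finSuccEquiv_X_succ,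
              MvPolynomial.finSuccEquiv_X_zero, MvPolynomial.finSuccEquiv_X_zero,
              Polynomial.map_add, Polynomial.map_mul, Polynomial.map_C, Polynomial.map_C,
              Polynomial.map_X, MvPolynomial.map_X, MvPolynomial.map_C]
            rfl
      exact DFunLike.congr_fun h2 F
    rw [h1]
    let w' : Fin n → ℚ := fun i => - w i
    refine sq_of_inv (f := (MvPolynomial.finSuccEquiv ℚ n).toRingEquiv.toRingHom)
      (g := (MvPolynomial.finSuccEquiv ℚ n).symm.toRingEquiv.toRingHom) ?_ ?_ ?_
    · intro y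
      exact (MvPolynomial.finSuccEquiv ℚ n).apply_symm_apply y
    · intro y
      exact (MvPolynomial.finSuccEquiv ℚ n).symm_apply_apply y
    · refine sq_of_inv (f := (sh w).toRingHom) (g := (sh w').toRingHom) ?_ ?_ hsq
      · intro y
        exact sh_sh w' w (fun i => by simp [w']) y
      · intro y
        exact sh_sh w w' (fun i => rfl) y
  · intro z t
    rw [hev, Polynomial.eval_eq_sum_range' (n := d + 1)]
    · rw [fm]
      refine Finset.sum_congr rfl fun i _ => ?_
      simp
    · exact lt_of_le_of_lt Polynomial.natDegree_map_le (by omega)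

end Pool.Agent.L0h46.CY
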