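import Pool.Agent.L0h46.CY.Stm

/-!
Project CY (helper46), module SU (helper91): the number of integers composed of few primes.
-/

set_option autoImplicit false

namespace Pool.Agent.L0h46.CY

open Finset Filter Topology

namespace SUm

/-- `n ↦ n ^ (-e)` -/
noncomputable def fe (e : ℝ) : ℕ →* ℝ where
  toFun n := (n : ℝ) ^ (-e)
  map_one' := by simp
  map_mul' a b := by
    rw [Nat.cast_mul, Real.mul_rpow (Nat.cast_nonneg _) (Nat.cast_nonneg _)]

theorem fe_lt {e : ℝ} (he : 0 < e) {p : ℕ} (hp : p.Prime) : (p : ℝ) ^ (-e) < 1 := by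
  have h2 : (1 : ℝ) < p := by exact_mod_cast hp.one_lt
  exact Real.rpow_lt_one_of_one_lt_of_neg h2 (by linarith)

/-- Rankin's bound -/
theorem rankin {e : ℝ} (he : 0 < e) (S : Finset ℕ) {X : ℝ} (hX : 1 ≤ X) (E : Finset ℕ)
    (hE : ∀ n ∈ E, 0 < n ∧ (n : ℝ) ≤ X ∧ ∀ p : ℕ, p.Prime → p ∣ n → p ∈ S) :
    (E.card : ℝ) ≤ X ^ e * ∏ p ∈ S with p.Prime, (1 - (p : ℝ) ^ (-e))⁻¹ := by
  have h1 := EulerProduct.summable_and_hasSum_factoredNumbers_prod_filter_prime_geometric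
    (f := fe e) (by
      intro p hp
      show ‖(p : ℝ) ^ (-e)‖ < 1
      rw [Real.norm_of_nonneg (Real.rpow_nonneg (by positivity) _)]
      exact fe_lt he hp) S
  obtain ⟨-, hs⟩ := h1
  have hmem : ∀ n ∈ E, n ∈ Nat.factoredNumbers S := by
    intro n hn
    obtain ⟨h1, -, h3⟩ := hE n hn
    refine ⟨h1.ne', fun p hp => ?_⟩
    rw [Nat.mem_primeFactorsList h1.ne'] at hp
    exact h3 p hp.1 hp.2
  have h2 : ∑ n ∈ E, (n : ℝ) ^ (-e) ≤ ∏ p ∈ S with p.Prime, (1 - (p : ℝ) ^ (-e))⁻¹ := by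
    have hnn : ∀ x : Nat.factoredNumbers S, 0 ≤ fe e (x : ℕ) := by
      intro x
      show (0 : ℝ) ≤ ((x : ℕ) : ℝ) ^ (-e)
      exact Real.rpow_nonneg (Nat.cast_nonneg _) _
    have h3 := hs.summable.sum_le_tsum (E.subtype (· ∈ Nat.factoredNumbers S)) (fun x _ => hnn x)
    rw [hs.tsum_eq, Finset.sum_subtype_of_mem (fun n : ℕ => fe e n) hmem] at h3
    exact h3
  calc (E.card : ℝ) = ∑ n ∈ E, (1 : ℝ) := by simp
    _ ≤ ∑ n ∈ E, X ^ e * (n : ℝ) ^ (-e) := by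
      refine Finset.sum_le_sum fun n hn => ?_
      obtain ⟨h1, h3, -⟩ := hE n hn
      have h0 : (0 : ℝ) < n := by exact_mod_cast h1
      have h4 : (n : ℝ) ^ e ≤ X ^ e := Real.rpow_le_rpow h0.le h3 he.le
      rw [Real.rpow_neg h0.le, ← div_eq_mul_inv, le_div_iff₀ (Real.rpow_pos_of_pos h0 _), one_mul]
      exact h4
    _ = X ^ e * ∑ n ∈ E, (n : ℝ) ^ (-e) := by rw [Finset.mul_sum]
    _ ≤ _ := mul_le_mul_of_nonneg_left h2 (Real.rpow_nonneg (by linarith) _)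

/-- the factors of the large primes -/
theorem large {e δ : ℝ} (he : 0 < e) (hδ : 0 < δ) : ∃ P0 : ℕ, ∀ p : ℕ, P0 ≤ p →
    (1 - (p : ℝ) ^ (-e))⁻¹ ≤ Real.exp δ := by
  have h1 : Tendsto (fun n : ℕ => (n : ℝ) ^ (-e)) atTop (𝓝 0) :=
    (tendsto_rpow_neg_atTop he).comp tendsto_natCast_atTop_atTop
  have h2 : 0 < 1 - Real.exp (-δ) := by
    have : Real.exp (-δ) < Real.exp 0 := Real.exp_lt_exp.2 (by linarith)
    rw [Real.exp_zero] at this
    linarith
  obtain ⟨P0, hP0⟩ := eventually_atTop.1 (h1.eventually (gt_mem_nhds h2))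
  refine ⟨P0, fun p hp => ?_⟩
  have h3 := hP0 p hp
  have h4 : Real.exp (-δ) ≤ 1 - (p : ℝ) ^ (-e) := by linarith
  have h5 := inv_anti₀ (Real.exp_pos _) h4
  rw [← Real.exp_neg, neg_neg] at h5
  exact h5

/-- the Euler product over few primes -/
theorem euler (M : ℕ) {ε : ℝ} (hε : 0 < ε) : ∃ K : ℝ, 0 < K ∧ ∀ (X : ℝ) (S : Finset ℕ), 1 ≤ X →
    (S.card : ℝ) ≤ M * (1 + Real.log X) →
    ∏ p ∈ S with p.Prime, (1 - (p : ℝ) ^ (-(ε / 2)))⁻¹ ≤ K * X ^ (ε / 2) := by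
  obtain ⟨e, he⟩ : ∃ e, e = ε / 2 := ⟨_, rfl⟩
  have he0 : 0 < e := by rw [he]; positivity
  obtain ⟨δ, hδ⟩ : ∃ δ, δ = e / (M + 1) := ⟨_, rfl⟩
  have hM : (0 : ℝ) ≤ M := Nat.cast_nonneg _
  have hδ0 : 0 < δ := by rw [hδ]; positivity
  have hδM : δ * M ≤ e := by
    rw [hδ, div_mul_eq_mul_div, div_le_iff₀ (by positivity)]
    nlinarith
  obtain ⟨P0, hP0⟩ := large he0 hδ0
  obtain ⟨g, hg⟩ : ∃ g : ℕ → ℝ, g = fun p : ℕ => (1 - (p : ℝ) ^ (-e))⁻¹ := ⟨_, rfl⟩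
  have hg1 : ∀ p : ℕ, p.Prime → 1 ≤ g p := by
    intro p hp
    rw [hg]
    have h1 := fe_lt he0 hp
    have h2 : 0 ≤ (p : ℝ) ^ (-e) := Real.rpow_nonneg (Nat.cast_nonneg _) _
    exact (one_le_inv₀ (by linarith)).2 (by linarith)
  obtain ⟨C0, hC0⟩ : ∃ C0, C0 = ∏ p ∈ (range P0).filter Nat.Prime, g p := ⟨_, rfl⟩
  have hC1 : 1 ≤ C0 := by
    rw [hC0]
    calc (1 : ℝ) = ∏ p ∈ (range P0).filter Nat.Prime, (1 : ℝ) := by rw [prod_const_one]
      _ ≤ _ := Finset.prod_le_prod (fun _ _ => zero_le_one) fun p hp => hg1 p (mem_filter.1 hp).2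
  refine ⟨C0 * Real.exp (δ * M), by positivity, ?_⟩
  intro X S hX hS
  rw [← he]
  have hX0 : 0 < X := by linarith
  have hlog : 0 ≤ Real.log X := Real.log_nonneg hX
  have e1 : ∏ p ∈ S with p.Prime, (1 - (p : ℝ) ^ (-e))⁻¹ =
      (∏ p ∈ (S.filter Nat.Prime).filter (fun p => p < P0), g p) *
      ∏ p ∈ (S.filter Nat.Prime).filter (fun p => ¬ p < P0), g p := by
    rw [prod_filter_mul_prod_filter_not, hg]
  have e2 : ∏ p ∈ (S.filter Nat.Prime).filter (fun p => p < P0), g p ≤ C0 := by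
    have hsub : (S.filter Nat.Prime).filter (fun p => p < P0) ⊆ (range P0).filter Nat.Prime := by
      intro p hp
      rw [mem_filter, mem_filter] at hp
      rw [mem_filter, mem_range]
      exact ⟨hp.2, hp.1.2⟩
    rw [hC0, ← prod_sdiff hsub]
    have h1 : (1 : ℝ) ≤ ∏ p ∈ (range P0).filter Nat.Prime \ (S.filter Nat.Prime).filter (fun p => p < P0),
        g p := by
      calc (1 : ℝ) = ∏ p ∈ (range P0).filter Nat.Prime \ (S.filter Nat.Prime).filter (fun p => p < P0),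
          (1 : ℝ) := by rw [prod_const_one]
        _ ≤ _ := Finset.prod_le_prod (fun _ _ => zero_le_one)
          fun p hp => hg1 p (mem_filter.1 (Finset.mem_sdiff.1 hp).1).2
    have h2 : 0 ≤ ∏ p ∈ (S.filter Nat.Prime).filter (fun p => p < P0), g p :=
      prod_nonneg fun p hp => zero_le_one.trans (hg1 p (mem_filter.1 (mem_filter.1 hp).1).2)
    exact le_mul_of_one_le_left h2 h1
  have e3 : ∏ p ∈ (S.filter Nat.Prime).filter (fun p => ¬ p < P0), g p ≤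
      Real.exp (δ * M) * X ^ e := by
    have h1 : ∏ p ∈ (S.filter Nat.Prime).filter (fun p => ¬ p < P0), g p ≤
        ∏ p ∈ (S.filter Nat.Prime).filter (fun p => ¬ p < P0), Real.exp δ := by
      refine Finset.prod_le_prod (fun p hp => ?_) fun p hp => ?_
      · exact zero_le_one.trans (hg1 p (mem_filter.1 (mem_filter.1 hp).1).2)
      · rw [hg]
        exact hP0 p (not_lt.1 (mem_filter.1 hp).2)
    refine h1.trans ?_
    rw [prod_const, ← Real.exp_nat_mul]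
    have h2 : (((S.filter Nat.Prime).filter (fun p => ¬ p < P0)).card : ℝ) ≤ M * (1 + Real.log X) := by
      refine le_trans ?_ hS
      exact_mod_cast card_le_card ((filter_subset _ _).trans (filter_subset _ _))
    have h3 : (((S.filter Nat.Prime).filter (fun p => ¬ p < P0)).card : ℝ) * δ ≤ δ * M + e * Real.log X := by
      calc (((S.filter Nat.Prime).filter (fun p => ¬ p < P0)).card : ℝ) * δ ≤
          (M * (1 + Real.log X)) * δ := mul_le_mul_of_nonneg_right h2 hδ0.le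
        _ = δ * M + (δ * M) * Real.log X := by ring
        _ ≤ δ * M + e * Real.log X := by gcongr
    refine (Real.exp_le_exp.2 h3).trans (le_of_eq ?_)
    rw [Real.exp_add, Real.rpow_def_of_pos hX0, mul_comm e]
  rw [e1]
  have h0 : 0 ≤ ∏ p ∈ (S.filter Nat.Prime).filter (fun p => ¬ p < P0), g p :=
    prod_nonneg fun p hp => zero_le_one.trans (hg1 p (mem_filter.1 (mem_filter.1 hp).1).2)
  calc (∏ p ∈ (S.filter Nat.Prime).filter (fun p => p < P0), g p) *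
      ∏ p ∈ (S.filter Nat.Prime).filter (fun p => ¬ p < P0), g p ≤
      C0 * (Real.exp (δ * M) * X ^ e) := mul_le_mul e2 e3 h0 (by linarith)
    _ = _ := by ring

end SUm

/-- **SU** -/
theorem su : S_SU := by
  intro M ε hε
  obtain ⟨K, hK, H⟩ := SUm.euler M hε
  refine ⟨K, hK, fun X S hX hS E hE => ?_⟩
  have h1 := SUm.rankin (e := ε / 2) (by positivity) S hX E hE
  have h2 := H X S hX hS
  have h3 : 0 ≤ X ^ (ε / 2) := Real.rpow_nonneg (by linarith) _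
  calc (E.card : ℝ) ≤ X ^ (ε / 2) * ∏ p ∈ S with p.Prime, (1 - (p : ℝ) ^ (-(ε / 2)))⁻¹ := h1
    _ ≤ X ^ (ε / 2) * (K * X ^ (ε / 2)) := mul_le_mul_of_nonneg_left h2 h3
    _ = K * (X ^ (ε / 2) * X ^ (ε / 2)) := by ring
    _ = K * X ^ ε := by rw [← Real.rpow_add (by linarith : (0 : ℝ) < X), add_halves]

end Pool.Agent.L0h46.CY
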