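import Pool.Agent.L0h46.CY.Stm
import Pool.Agent.L0h43.PL.Fin

/-!
# CY, module TU: the number of `a` at which `q` divides the polynomial
-/

set_option autoImplicit false

namespace Pool.Agent.L0h46.CY

open Finset
open Pool.Agent.L0h46.CV (fm MF Gd)

namespace TU

/-- a set of integers in `[-B, B]` that are congruent modulo `q` -/
lemma cls_card (B : ℝ) (hB : 1 ≤ B) (q : ℕ) (hq : 0 < q) (C : Finset ℤ)
    (h1 : ∀ a ∈ C, |(a : ℝ)| ≤ B) (h2 : ∀ a ∈ C, ∀ b ∈ C, (q : ℤ) ∣ a - b) :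
    (C.card : ℝ) ≤ 2 * B / q + 1 := by
  have hqR : (0 : ℝ) < q := by exact_mod_cast hq
  rcases C.eq_empty_or_nonempty with h0 | h0
  · rw [h0, card_empty, Nat.cast_zero]
    positivity
  · set a0 : ℤ := C.min' h0 with ha0
    have ha0m : a0 ∈ C := C.min'_mem h0
    have hmap : ∀ a ∈ C, ((a - a0) / (q : ℤ)).toNat ∈ range (⌊2 * B / q⌋₊ + 1) := by
      intro a ha
      obtain ⟨k, hk⟩ := h2 a ha a0 ha0m
      have hge : a0 ≤ a := C.min'_le a ha
      have hqZ : (0 : ℤ) < q := by exact_mod_cast hq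
      have hk0 : 0 ≤ k := by
        by_contra hc
        have hc' : k ≤ -1 := by omega
        have : (q : ℤ) * k ≤ (q : ℤ) * (-1) := mul_le_mul_of_nonneg_left hc' hqZ.le
        omega
      rw [hk, Int.mul_ediv_cancel_left _ hqZ.ne', mem_range, Nat.lt_succ_iff]
      apply Nat.le_floor
      rw [le_div_iff₀ hqR]
      have h3 : ((k.toNat : ℕ) : ℝ) = (k : ℝ) := by
        have : ((k.toNat : ℕ) : ℤ) = k := Int.toNat_of_nonneg hk0
        exact_mod_cast this
      rw [h3]
      have h4 : (a : ℝ) - a0 = q * k := by exact_mod_cast hk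
      have h5 := (abs_le.1 (h1 a ha)).2
      have h6 := (abs_le.1 (h1 a0 ha0m)).1
      linarith
    have hinj : Set.InjOn (fun a : ℤ => ((a - a0) / (q : ℤ)).toNat) C := by
      intro a ha b hb hab
      obtain ⟨k, hk⟩ := h2 a ha a0 ha0m
      obtain ⟨l, hl⟩ := h2 b hb a0 ha0m
      have hga : a0 ≤ a := C.min'_le a ha
      have hgb : a0 ≤ b := C.min'_le b hb
      have hqZ : (0 : ℤ) < q := by exact_mod_cast hq
      have hab' : ((a - a0) / (q : ℤ)).toNat = ((b - a0) / (q : ℤ)).toNat := hab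
      rw [hk, hl, Int.mul_ediv_cancel_left _ hqZ.ne', Int.mul_ediv_cancel_left _ hqZ.ne'] at hab'
      have hk0 : 0 ≤ k := by
        by_contra hc
        have hc' : k ≤ -1 := by omega
        have : (q : ℤ) * k ≤ (q : ℤ) * (-1) := mul_le_mul_of_nonneg_left hc' hqZ.le
        omega
      have hl0 : 0 ≤ l := by
        by_contra hc
        have hc' : l ≤ -1 := by omega
        have : (q : ℤ) * l ≤ (q : ℤ) * (-1) := mul_le_mul_of_nonneg_left hc' hqZ.le
        omega
      have hkl : k = l := by omega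
      rw [← hkl] at hl
      omega
    have hcard := card_le_card_of_injOn _ hmap hinj
    rw [card_range] at hcard
    calc (C.card : ℝ) ≤ ((⌊2 * B / q⌋₊ + 1 : ℕ) : ℝ) := by exact_mod_cast hcard
      _ = (⌊2 * B / q⌋₊ : ℝ) + 1 := by push_cast; ring
      _ ≤ 2 * B / q + 1 := by
        have := Nat.floor_le (a := 2 * B / (q : ℝ)) (by positivity)
        linarith

end TU

theorem tu (h : Pool.Agent.L0h46.CV.S_COL) : S_TU := by
  intro d hd ε hε
  obtain ⟨C1, hC1, h1⟩ := Pool.Agent.L0h43.PL.pow_omega_le (d + 1) (by omega) ε hε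
  refine ⟨C1 * 2, by positivity, ?_⟩
  intro c B hB q hq hg E hE
  have hqR : (0 : ℝ) < q := by exact_mod_cast hq
  obtain ⟨col, hc1, hc2⟩ := h d c hd q hq hg
  have hcop : ∀ a : ℤ, IsCoprime ((a, (1 : ℤ)) : ℤ × ℤ).1 ((a, (1 : ℤ)) : ℤ × ℤ).2 := fun a =>
    isCoprime_one_right
  have hmap : ∀ a ∈ E, col (a, 1) ∈ range ((d + 1) ^ q.primeFactors.card) := by
    intro a ha
    rw [mem_range]
    exact hc1 (a, 1) (hcop a) (hE a ha).2
  have hsum := card_eq_sum_card_fiberwise (f := fun a : ℤ => col (a, 1)) (s := E)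
    (t := range ((d + 1) ^ q.primeFactors.card)) hmap
  have hfib : ∀ j ∈ range ((d + 1) ^ q.primeFactors.card),
      ((E.filter fun a : ℤ => col (a, 1) = j).card : ℝ) ≤ 2 * B / q + 1 := by
    intro j _
    apply TU.cls_card B hB q hq
    · intro a ha
      exact (hE a (mem_filter.1 ha).1).1
    · intro a ha b hb
      rw [mem_filter] at ha hb
      have := hc2 (a, 1) (b, 1) (hcop a) (hcop b) (hE a ha.1).2 (hE b hb.1).2 (ha.2.trans hb.2.symm)
      simpa using this
  have h2 : (E.card : ℝ) ≤ (((d + 1) ^ q.primeFactors.card : ℕ) : ℝ) * (2 * B / q + 1) := by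
    rw [hsum]
    push_cast
    calc ∑ j ∈ range ((d + 1) ^ q.primeFactors.card),
          ((E.filter fun a : ℤ => col (a, 1) = j).card : ℝ)
        ≤ ∑ j ∈ range ((d + 1) ^ q.primeFactors.card), (2 * B / q + 1) := sum_le_sum hfib
      _ = _ := by
        rw [sum_const, card_range, nsmul_eq_mul]
        push_cast
        ring
  have h3 := h1 q hq.ne'
  have hBq : 0 ≤ B / (q : ℝ) := by positivity
  have h4 : 2 * B / (q : ℝ) + 1 ≤ 2 * (1 + B / q) := by
    rw [mul_div_assoc]
    linarith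
  calc (E.card : ℝ) ≤ (((d + 1) ^ q.primeFactors.card : ℕ) : ℝ) * (2 * B / q + 1) := h2
    _ ≤ (C1 * (q : ℝ) ^ ε) * (2 * (1 + B / q)) :=
      mul_le_mul h3 h4 (by positivity) (by positivity)
    _ = C1 * 2 * (q : ℝ) ^ ε * (1 + B / q) := by ring

end Pool.Agent.L0h46.CY
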