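import Pool.Agent.L0h46.CY.Stm
import Pool.Agent.L0h46.CV.WBA

/-!
# Module WU: values `k y ^ t` of a polynomial, uniformly in the polynomial (large sieve)
-/

set_option autoImplicit false

namespace Pool.Agent.L0h46.CY

open Finset Polynomial
open Pool.Agent.L0h46.CV (fm MF Gd S_CLS)
open Pool.Agent.L0h46.CV.WBAm (ev_ineq card_le_log sieve)

theorem wu (h2 : S_CLS) : S_WU := by
  classical
  intro t d ht hd M ε hε
  obtain ⟨K1, hK1, hcls⟩ := h2 t d ht hd
  obtain ⟨p0, hp0⟩ := exists_nat_ge (64 * K1 ^ 2)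
  have hφ : (0 : ℝ) < t.totient := by exact_mod_cast Nat.totient_pos.2 ht.pos
  have hlM : 0 ≤ Real.log (M : ℝ) := Real.log_natCast_nonneg _
  obtain ⟨Y0, hY0⟩ := Filter.eventually_atTop.1 ((ev_ineq (φ := (t.totient : ℝ))
    (C1 := (p0 : ℝ) + 1 + 4 * Real.log (M : ℝ))
    (C3 := 8 * (M : ℝ)) hφ (by positivity) (by positivity) hε).and
    (Pool.Agent.TH915.UC.primes_ap_lower t 1 ht.pos (Nat.coprime_one_left t)))
  obtain ⟨B0, hB0⟩ : ∃ B0 : ℝ, B0 = (max Y0 1) ^ 2 := ⟨_, rfl⟩
  have hB01 : 1 ≤ B0 := by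
    rw [hB0]
    have : (1 : ℝ) ≤ max Y0 1 := le_max_right _ _
    nlinarith
  refine ⟨3 * B0 + 171, by linarith, ?_⟩
  intro c D0 B hB hD0 hDM hbad k hk hkM E hE
  have hBp : 0 < B := by linarith
  obtain ⟨Nb, hNb⟩ : ∃ Nb : ℕ, Nb = ⌊B⌋₊ := ⟨_, rfl⟩
  have hNbB : (Nb : ℝ) ≤ B := by rw [hNb]; exact Nat.floor_le hBp.le
  have hEN : ∀ a ∈ E, a.natAbs ≤ Nb := by
    intro a ha
    rw [hNb]
    apply Nat.le_floor
    have := (hE a ha).1
    rwa [Nat.cast_natAbs, Int.cast_abs]
  have hB12 : 1 ≤ B ^ ((1 : ℝ) / 2 + ε) := Real.one_le_rpow hB (by linarith)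
  by_cases hBB : B < B0
  · -- small B
    have h3 : E ⊆ Finset.Icc (-(Nb : ℤ)) Nb := by
      intro a ha
      have := hEN a ha
      rw [Finset.mem_Icc]
      omega
    have h4 := Finset.card_le_card h3
    rw [Int.card_Icc] at h4
    have h5 : E.card ≤ 2 * Nb + 1 := by omega
    have h6 : (E.card : ℝ) ≤ 2 * Nb + 1 := by exact_mod_cast h5
    nlinarith
  · rw [not_lt] at hBB
    obtain ⟨y, hy⟩ : ∃ y : ℝ, y = Real.sqrt B := ⟨_, rfl⟩
    have hyB : y ^ 2 = B := by rw [hy]; exact Real.sq_sqrt hBp.le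
    have hyY : max Y0 1 ≤ y := by
      rw [hy, Real.le_sqrt' (by have : (1 : ℝ) ≤ max Y0 1 := le_max_right _ _; linarith), ← hB0]
      exact hBB
    have hy1 : 1 ≤ y := (le_max_right _ _).trans hyY
    have hy0 : 0 < y := by linarith
    obtain ⟨hyi, hyp⟩ := hY0 y ((le_max_left _ _).trans hyY)
    obtain ⟨Q, hQ⟩ : ∃ Q : ℕ, Q = ⌊y⌋₊ := ⟨_, rfl⟩
    rw [← hQ] at hyp
    have hQy : (Q : ℝ) ≤ y := by rw [hQ]; exact Nat.floor_le hy0.le
    have hM1 : 1 ≤ M := by
      by_contra hcon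
      have : M = 0 := by omega
      subst this
      have h3 : |(k : ℝ)| ≤ 0 := by simpa using hkM
      have h4 : (k : ℝ) = 0 := abs_nonpos_iff.1 h3
      exact hk (by exact_mod_cast h4)
    obtain ⟨n, hn⟩ : ∃ n : ℕ, n = D0.natAbs * k.natAbs := ⟨_, rfl⟩
    have hn0 : n ≠ 0 := by
      rw [hn]
      exact mul_ne_zero (Int.natAbs_ne_zero.2 hD0) (Int.natAbs_ne_zero.2 hk)
    have hMp : (0 : ℝ) < M := by exact_mod_cast hM1
    have hlogn : Real.log n ≤ 2 * Real.log (M : ℝ) + 4 * (M : ℝ) * Real.log y := by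
      have h3 : (n : ℝ) ≤ (M * B ^ M) * (M * B ^ M) := by
        rw [hn]
        push_cast
        rw [Nat.cast_natAbs, Nat.cast_natAbs, Int.cast_abs, Int.cast_abs]
        exact mul_le_mul hDM hkM (abs_nonneg _) (by positivity)
      have h4 := Real.log_le_log (by exact_mod_cast Nat.pos_of_ne_zero hn0) h3
      rw [Real.log_mul (by positivity) (by positivity), Real.log_mul (by positivity)
        (by positivity), Real.log_pow, ← hyB, Real.log_pow] at h4
      push_cast at h4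
      linarith
    have hω : (n.primeFactors.card : ℝ) ≤ 4 * Real.log (M : ℝ) + 8 * (M : ℝ) * Real.log y := by
      have := card_le_log n hn0
      linarith
    obtain ⟨P, hP⟩ : ∃ P : Finset ℕ, P = ((Icc 1 Q).filter (fun p => p.Prime ∧
      p ≡ 1 [MOD t])).filter (fun p => p0 < p ∧ ¬ p ∣ n) := ⟨_, rfl⟩
    have hAP : ((Icc 1 Q).filter (fun p => p.Prime ∧ p ≡ 1 [MOD t])).card ≤
        P.card + (p0 + 1) + n.primeFactors.card := by
      have h3 : (Icc 1 Q).filter (fun p => p.Prime ∧ p ≡ 1 [MOD t]) ⊆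
          P ∪ range (p0 + 1) ∪ n.primeFactors := by
        intro p hp
        have hpp : p.Prime := (Finset.mem_filter.1 hp).2.1
        rw [Finset.mem_union, Finset.mem_union, Finset.mem_range, Nat.mem_primeFactors, hP,
          Finset.mem_filter]
        by_cases h4 : p < p0 + 1
        · exact Or.inl (Or.inr h4)
        · by_cases h5 : p ∣ n
          · exact Or.inr ⟨hpp, h5, hn0⟩
          · exact Or.inl (Or.inl ⟨hp, by omega, h5⟩)
      refine (Finset.card_le_card h3).trans ((Finset.card_union_le _ _).trans ?_)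
      have h4 := Finset.card_union_le P (range (p0 + 1))
      rw [Finset.card_range] at h4
      omega
    have hAP' : (((Icc 1 Q).filter (fun p => p.Prime ∧ p ≡ 1 [MOD t])).card : ℝ) ≤
        P.card + (p0 + 1) + n.primeFactors.card := by exact_mod_cast hAP
    have hPz : y ^ (1 - 2 * ε) ≤ P.card := by linarith
    -- the sieve
    have hmemP : ∀ q ∈ P, q.Prime ∧ q ≤ Q ∧ t ∣ q - 1 ∧ p0 < q ∧ ¬ q ∣ n := by
      intro q hq
      rw [hP, Finset.mem_filter, Finset.mem_filter, Finset.mem_Icc] at hq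
      obtain ⟨⟨⟨h3, h4⟩, h5, h6⟩, h7, h8⟩ := hq
      exact ⟨h5, h4, (Nat.modEq_iff_dvd' h3).1 h6.symm, h7, h8⟩
    obtain ⟨I, hI⟩ : ∃ I : ℕ → Finset ℕ, ∀ p r, r ∈ I p ↔ (r < p ∧ ∃ z : ZMod p,
        ∑ i ∈ range (d + 1), (c i : ZMod p) * ((r : ZMod p) - ((Nb + 1 : ℕ) : ZMod p)) ^ i *
          (1 : ZMod p) ^ (d - i) = (k : ZMod p) * z ^ t) :=
      ⟨fun p => (range p).filter fun r => ∃ z : ZMod p,
        ∑ i ∈ range (d + 1), (c i : ZMod p) * ((r : ZMod p) - ((Nb + 1 : ℕ) : ZMod p)) ^ i *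
          (1 : ZMod p) ^ (d - i) = (k : ZMod p) * z ^ t,
        fun p r => by rw [Finset.mem_filter, Finset.mem_range]⟩
    have hI2 : ∀ q ∈ P, ((I q).card : ℝ) ≤ 5 / 8 * q := by
      intro q hq
      obtain ⟨hqp, -, htq, hpq, hqn⟩ := hmemP q hq
      have : NeZero q := ⟨hqp.ne_zero⟩
      have hq0 : (0 : ℝ) < q := by exact_mod_cast hqp.pos
      have hgd : Gd d c q := hbad q hqp fun h => hqn (by
        rw [hn]
        exact (Int.natCast_dvd.1 h).mul_right _)
      have hkq : (k : ZMod q) ≠ 0 := by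
        rw [Ne, ZMod.intCast_zmod_eq_zero_iff_dvd, Int.natCast_dvd]
        intro h
        exact hqn (by rw [hn]; exact h.mul_left _)
      have : Fact q.Prime := ⟨hqp⟩
      have h3 := hcls c q hgd htq (k : ZMod q) (1 : ZMod q) hkq one_ne_zero
      have h4 : (I q).card ≤ {a : ZMod q | ∃ z : ZMod q, ∑ i ∈ range (d + 1),
          (c i : ZMod q) * a ^ i * (1 : ZMod q) ^ (d - i) = (k : ZMod q) * z ^ t}.ncard := by
        rw [← Set.ncard_coe_finset]
        refine Set.ncard_le_ncard_of_injOn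
          (fun r : ℕ => (r : ZMod q) - ((Nb + 1 : ℕ) : ZMod q)) ?_ ?_ (Set.toFinite _)
        · intro r hr
          rw [Finset.mem_coe, hI] at hr
          exact hr.2
        · intro r hr r' hr' h
          rw [Finset.mem_coe, hI] at hr hr'
          have h5 : (r : ZMod q) = (r' : ZMod q) := sub_left_injective h
          rw [ZMod.natCast_eq_natCast_iff', Nat.mod_eq_of_lt hr.1, Nat.mod_eq_of_lt hr'.1] at h5
          exact h5
      have h5 : ((I q).card : ℝ) ≤ q / t + K1 * Real.sqrt q := by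
        refine le_trans ?_ h3
        exact_mod_cast h4
      have h6 : (q : ℝ) / t ≤ q / 2 := by
        apply div_le_div_of_nonneg_left hq0.le (by norm_num)
        exact_mod_cast ht.two_le
      have h7 : K1 * Real.sqrt q ≤ q / 8 := by
        have h8 : 8 * K1 ≤ Real.sqrt q := by
          apply Real.le_sqrt_of_sq_le
          have : (p0 : ℝ) < q := by exact_mod_cast hpq
          nlinarith
        have h9 : Real.sqrt q * Real.sqrt q = q := Real.mul_self_sqrt hq0.le
        have h10 : 0 ≤ Real.sqrt q := Real.sqrt_nonneg _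
        nlinarith
      linarith
    obtain ⟨E', hE'⟩ : ∃ E' : Finset ℕ, E' = E.image (fun a : ℤ => (a + (Nb + 1)).toNat) :=
      ⟨_, rfl⟩
    have hcard : E'.card = E.card := by
      rw [hE']
      apply Finset.card_image_of_injOn
      intro a ha a' ha' h
      have h3 := hEN a ha
      have h4 := hEN a' ha'
      simp only at h
      omega
    have hsub : E' ⊆ Icc 1 (2 * Nb + 1) := by
      intro m hm
      rw [hE', Finset.mem_image] at hm
      obtain ⟨a, ha, rfl⟩ := hm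
      have h3 := hEN a ha
      rw [Finset.mem_Icc]
      omega
    have hmem : ∀ m ∈ E', ∀ q ∈ P, m % q ∈ I q := by
      intro m hm q hq
      rw [hE', Finset.mem_image] at hm
      obtain ⟨a, ha, rfl⟩ := hm
      obtain ⟨hqp, -, -, -, -⟩ := hmemP q hq
      rw [hI]
      refine ⟨Nat.mod_lt _ hqp.pos, ?_⟩
      obtain ⟨z, hz⟩ := (hE a ha).2
      refine ⟨(z : ZMod q), ?_⟩
      have h3 := hEN a ha
      have e1 : ((((a + (Nb + 1)).toNat % q : ℕ) : ZMod q)) - ((Nb + 1 : ℕ) : ZMod q) =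
          (a : ZMod q) := by
        rw [ZMod.natCast_mod]
        have e2 : (((a + (Nb + 1)).toNat : ℕ) : ℤ) = a + (Nb + 1) := by omega
        have e3 : (((a + (Nb + 1)).toNat : ℕ) : ZMod q) = ((a + (Nb + 1) : ℤ) : ZMod q) := by
          rw [← e2]
          push_cast
          rfl
        rw [e3]
        push_cast
        ring
      rw [e1]
      have h4 := congrArg (Int.cast : ℤ → ZMod q) hz
      unfold fm at h4
      push_cast at h4
      exact h4
    have key := sieve (2 * Nb + 1) Q P I (fun q hq => (hmemP q hq).1) (fun q hq => (hmemP q hq).2.1)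
      (fun q _ r hr => Finset.mem_range.2 ((hI q r).1 hr).1) hI2 E' hsub hmem
    rw [hcard] at key
    have hz0 : 0 < y ^ (1 - 2 * ε) := Real.rpow_pos_of_pos hy0 _
    have hPpos : (0 : ℝ) < P.card := by linarith
    have h3 : 6 * (((2 * Nb + 1 : ℕ) : ℝ) + (Q : ℝ) ^ 2) ≤ 24 * B := by
      push_cast
      have : (Q : ℝ) ^ 2 ≤ B := by
        rw [← hyB]
        exact pow_le_pow_left₀ (Nat.cast_nonneg _) hQy 2
      linarith
    have h4 : (E.card : ℝ) * (9 / 64 * P.card) ≤ 24 * B := by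
      have h5 : ((E.card : ℝ) * (9 / 64 * P.card)) * P.card ≤ (24 * B) * P.card := by
        calc ((E.card : ℝ) * (9 / 64 * P.card)) * P.card =
            (E.card : ℝ) * (3 / 8 * (P.card : ℝ)) ^ 2 := by ring
          _ ≤ _ := key
          _ ≤ _ := mul_le_mul_of_nonneg_right h3 hPpos.le
      exact le_of_mul_le_mul_right h5 hPpos
    have h5 : (E.card : ℝ) * y ^ (1 - 2 * ε) ≤ 171 * B := by
      have h6 : (E.card : ℝ) * y ^ (1 - 2 * ε) ≤ E.card * P.card :=
        mul_le_mul_of_nonneg_left hPz (Nat.cast_nonneg _)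
      nlinarith
    have h6 : B = B ^ ((1 : ℝ) / 2 + ε) * y ^ (1 - 2 * ε) := by
      have e : y ^ (1 - 2 * ε) = B ^ ((1 : ℝ) / 2 - ε) := by
        rw [hy, Real.sqrt_eq_rpow, ← Real.rpow_mul hBp.le]
        congr 1
        ring
      rw [e, ← Real.rpow_add hBp]
      have : (1 : ℝ) / 2 + ε + (1 / 2 - ε) = 1 := by ring
      rw [this, Real.rpow_one]
    have h7 : (E.card : ℝ) * y ^ (1 - 2 * ε) ≤ (171 * B ^ ((1 : ℝ) / 2 + ε)) *
        y ^ (1 - 2 * ε) := by
      rw [mul_assoc, ← h6]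
      exact h5
    have h8 := le_of_mul_le_mul_right h7 hz0
    nlinarith

end Pool.Agent.L0h46.CY
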